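import Pool.Agent.N508.ET.Gap

/-!
# A finite set with a bounded representation function and few factors
-/

set_option autoImplicit false

namespace Pool.Agent.N508.ET

open Finset

/-- mixed radix: the value is smaller than the next weight -/
lemma radix_lt {W r a : ℕ → ℕ} (h0 : 0 < W 0) (hW : ∀ i, W (i + 1) = W i * r i) {k : ℕ}
    (ha : ∀ i < k, a i < r i) : ∑ i ∈ range k, W i * a i < W k := by
  induction k with
  | zero => simpa using h0
  | succ k ih =>
    rw [sum_range_succ, hW]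
    have h1 := ih (fun i hi => ha i (by omega))
    have h2 : W k * (a k + 1) ≤ W k * r k := Nat.mul_le_mul_left _ (ha k (by omega))
    rw [mul_add, mul_one] at h2
    omega

/-- mixed radix: uniqueness -/
lemma radix_inj {W r a b : ℕ → ℕ} (h0 : 0 < W 0) (hW : ∀ i, W (i + 1) = W i * r i) {k : ℕ}
    (ha : ∀ i < k, a i < r i) (hb : ∀ i < k, b i < r i)
    (h : ∑ i ∈ range k, W i * a i = ∑ i ∈ range k, W i * b i) : ∀ i < k, a i = b i := by
  induction k with
  | zero => intro i hi; omega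
  | succ k ih =>
    rw [sum_range_succ, sum_range_succ] at h
    have h1 := radix_lt h0 hW (a := a) (k := k) (fun i hi => ha i (by omega))
    have h2 := radix_lt h0 hW (a := b) (k := k) (fun i hi => hb i (by omega))
    have h3 : 0 < W k := by omega
    have h4 : a k = b k := by
      have e1 : (∑ i ∈ range k, W i * a i + W k * a k) / W k = a k := by
        rw [Nat.add_mul_div_left _ _ h3, Nat.div_eq_of_lt h1, zero_add]
      have e2 : (∑ i ∈ range k, W i * b i + W k * b k) / W k = b k := by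
        rw [Nat.add_mul_div_left _ _ h3, Nat.div_eq_of_lt h2, zero_add]
      rw [← e1, ← e2, h]
    rw [h4] at h
    have h5 := ih (fun i hi => ha i (by omega)) (fun i hi => hb i (by omega)) (by omega)
    intro i hi
    rcases Nat.lt_succ_iff_lt_or_eq.1 hi with h6 | h6
    · exact h5 i h6
    · rw [h6]; exact h4

/-- the Sidon property of the pairs `(t, t ^ 2 mod p)` -/
lemma sidon {p : ℕ} (hp : p.Prime) (hp2 : 2 < p) {t t' u u' : ℕ} (ht : t < p)
    (hu : u < p) (hu' : u' < p) (h1 : t + t' = u + u')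
    (h2 : t ^ 2 % p + t' ^ 2 % p = u ^ 2 % p + u' ^ 2 % p) :
    (t = u ∧ t' = u') ∨ (t = u' ∧ t' = u) := by
  have := Fact.mk hp
  have e1 : (t : ZMod p) + t' = u + u' := by exact_mod_cast congrArg (Nat.cast (R := ZMod p)) h1
  have e2 : (t : ZMod p) ^ 2 + (t' : ZMod p) ^ 2 = (u : ZMod p) ^ 2 + (u' : ZMod p) ^ 2 := by
    have h3 := congrArg (Nat.cast (R := ZMod p)) h2
    push_cast at h3
    simp only [ZMod.natCast_mod] at h3
    have h4 : ∀ n : ℕ, ((n % p : ℕ) : ZMod p) = n := fun n => ZMod.natCast_mod n p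
    have h5 := congrArg (Nat.cast (R := ZMod p)) h2
    rw [Nat.cast_add, Nat.cast_add, h4, h4, h4, h4] at h5
    push_cast at h5
    exact h5
  have h2ne : (2 : ZMod p) ≠ 0 := by
    have : ((2 : ℕ) : ZMod p) ≠ 0 := by
      rw [Ne, ZMod.natCast_eq_zero_iff]
      intro hd
      have := Nat.le_of_dvd (by norm_num) hd
      omega
    simpa using this
  have e3 : ((t : ZMod p) - u) * (t - u') = 0 := by
    have e4 : (2 : ZMod p) * (((t : ZMod p) - u) * (t - u')) = 0 := by
      have e5 : (t' : ZMod p) = u + u' - t := by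
        rw [← e1]; ring
      rw [e5] at e2
      linear_combination e2
    exact (mul_eq_zero.1 e4).resolve_left h2ne
  have lift : ∀ x y : ℕ, x < p → y < p → ((x : ZMod p) - y) = 0 → x = y := by
    intro x y hx hy h
    have h3 : (x : ZMod p) = y := sub_eq_zero.1 h
    rw [ZMod.natCast_eq_natCast_iff'] at h3
    rwa [Nat.mod_eq_of_lt hx, Nat.mod_eq_of_lt hy] at h3
  rcases mul_eq_zero.1 e3 with h | h
  · left
    have := lift t u ht hu h
    omega
  · right
    have := lift t u' ht hu' h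
    omega

/-- parameters of a block -/
structure Par where
  k : ℕ
  s : ℕ → ℕ
  p : ℕ → ℕ
  G : ℕ → ℕ
  H : ℕ → ℕ
  hs : ∀ i, 1 ≤ s i
  hp : ∀ i, (p i).Prime ∧ s i ≤ p i ∧ 2 < p i
  hG : ∀ i, G (i + 1) = G i * (4 * s i)
  hH0 : H 0 = 1
  hH : ∀ i, H (i + 1) = H i * (2 * p i)
  hHG : 8 * H k ≤ G 0

namespace Par

variable (P : Par)

/-- the summand -/
def D (i t : ℕ) : ℕ := P.G i * t + P.H i * (t ^ 2 % P.p i)

/-- the elements of level `j` -/
def Lev (j : ℕ) : Set ℕ := {x | ∃ t : ℕ → ℕ, (∀ i < j, t i < P.s i) ∧ x = ∑ i ∈ range j, P.D i (t i)}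

lemma H_pos (i : ℕ) : 0 < P.H i := by
  induction i with
  | zero => rw [P.hH0]; norm_num
  | succ i ih =>
    rw [P.hH]
    have := (P.hp i).2.2
    exact Nat.mul_pos ih (by omega)

lemma H_mono {i j : ℕ} (h : i ≤ j) : P.H i ≤ P.H j := by
  induction h with
  | refl => exact le_refl _
  | step _ ih =>
    refine le_trans ih ?_
    rename_i m _
    rw [P.hH]
    have := (P.hp m).2.2
    exact Nat.le_mul_of_pos_right _ (by omega)

lemma G0_pos : 0 < P.G 0 := by
  have := P.hHG
  have := P.H_pos P.k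
  omega

lemma G_dvd {i j : ℕ} (h : i ≤ j) : P.G i ∣ P.G j := by
  induction h with
  | refl => exact dvd_refl _
  | step _ ih =>
    rw [P.hG]
    exact Dvd.dvd.mul_right ih _

lemma G_pos (i : ℕ) : 0 < P.G i := by
  induction i with
  | zero => exact P.G0_pos
  | succ i ih =>
    rw [P.hG]
    have := P.hs i
    exact Nat.mul_pos ih (by omega)

lemma G_mono {i j : ℕ} (h : i ≤ j) : P.G i ≤ P.G j := Nat.le_of_dvd (P.G_pos j) (P.G_dvd h)

lemma v_lt (i t : ℕ) : t ^ 2 % P.p i < P.p i := Nat.mod_lt _ (by have := (P.hp i).2.2; omega)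

lemma split (t : ℕ → ℕ) (S : Finset ℕ) : ∑ i ∈ S, P.D i (t i) =
    ∑ i ∈ S, P.G i * t i + ∑ i ∈ S, P.H i * ((t i) ^ 2 % P.p i) := by
  rw [← sum_add_distrib]
  rfl

/-- decoding of the sum of two elements of level `k` -/
lemma decode {t t' u u' : ℕ → ℕ} (ht : ∀ i < P.k, t i < P.s i) (ht' : ∀ i < P.k, t' i < P.s i)
    (hu : ∀ i < P.k, u i < P.s i) (hu' : ∀ i < P.k, u' i < P.s i)
    (h : ∑ i ∈ range P.k, P.D i (t i) + ∑ i ∈ range P.k, P.D i (t' i) =
      ∑ i ∈ range P.k, P.D i (u i) + ∑ i ∈ range P.k, P.D i (u' i)) :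
    ∀ i < P.k, (t i = u i ∧ t' i = u' i) ∨ (t i = u' i ∧ t' i = u i) := by
  have hv : ∀ t : ℕ → ℕ, ∀ t' : ℕ → ℕ, ∀ i < P.k,
      (t i) ^ 2 % P.p i + (t' i) ^ 2 % P.p i < 2 * P.p i := by
    intro t t' i _
    have h1 := P.v_lt i (t i)
    have h2 := P.v_lt i (t' i)
    omega
  have key : ∀ t t' : ℕ → ℕ, ∑ i ∈ range P.k, P.D i (t i) + ∑ i ∈ range P.k, P.D i (t' i) =
      ∑ i ∈ range P.k, P.H i * ((t i) ^ 2 % P.p i + (t' i) ^ 2 % P.p i) +
        ∑ i ∈ range P.k, P.G i * (t i + t' i) := by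
    intro t t'
    rw [P.split, P.split]
    simp only [mul_add, sum_add_distrib]
    ring
  rw [key, key] at h
  have hlow : ∀ t t' : ℕ → ℕ,
      ∑ i ∈ range P.k, P.H i * ((t i) ^ 2 % P.p i + (t' i) ^ 2 % P.p i) < P.G 0 := by
    intro t t'
    have h1 := radix_lt (W := P.H) (r := fun i => 2 * P.p i)
      (a := fun i => (t i) ^ 2 % P.p i + (t' i) ^ 2 % P.p i) (P.H_pos 0) P.hH (hv t t')
    have h2 := P.hHG
    beta_reduce at h1
    omega
  have hdvd : ∀ a : ℕ → ℕ, P.G 0 ∣ ∑ i ∈ range P.k, P.G i * a i := by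
    intro a
    apply Finset.dvd_sum
    intro i _
    exact Dvd.dvd.mul_right (P.G_dvd (Nat.zero_le i)) _
  have hE : ∑ i ∈ range P.k, P.H i * ((t i) ^ 2 % P.p i + (t' i) ^ 2 % P.p i) =
      ∑ i ∈ range P.k, P.H i * ((u i) ^ 2 % P.p i + (u' i) ^ 2 % P.p i) := by
    obtain ⟨c, hc⟩ := hdvd (fun i => t i + t' i)
    obtain ⟨c', hc'⟩ := hdvd (fun i => u i + u' i)
    beta_reduce at hc hc'
    rw [hc, hc'] at h
    have h1 := congrArg (fun x => x % P.G 0) h
    simp only [Nat.add_mul_mod_self_left] at h1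
    rwa [Nat.mod_eq_of_lt (hlow t t'), Nat.mod_eq_of_lt (hlow u u')] at h1
  have hF : ∑ i ∈ range P.k, P.G i * (t i + t' i) = ∑ i ∈ range P.k, P.G i * (u i + u' i) := by
    omega
  have h1 := radix_inj (W := P.H) (r := fun i => 2 * P.p i)
    (a := fun i => (t i) ^ 2 % P.p i + (t' i) ^ 2 % P.p i)
    (b := fun i => (u i) ^ 2 % P.p i + (u' i) ^ 2 % P.p i) (P.H_pos 0) P.hH (hv t t') (hv u u') hE
  have h2 := radix_inj (W := P.G) (r := fun i => 4 * P.s i) (a := fun i => t i + t' i)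
    (b := fun i => u i + u' i) (P.G_pos 0) P.hG
    (by intro i hi; have := ht i hi; have := ht' i hi; beta_reduce; omega)
    (by intro i hi; have := hu i hi; have := hu' i hi; beta_reduce; omega) hF
  intro i hi
  obtain ⟨h3, h4, h5⟩ := P.hp i
  exact sidon h3 h5 (lt_of_lt_of_le (ht i hi) h4) (lt_of_lt_of_le (hu i hi) h4)
    (lt_of_lt_of_le (hu' i hi) h4) (h2 i hi) (h1 i hi)

/-- the elements of the block -/
def B : Set ℕ := P.Lev P.k

/-- there are at most `2 ^ k` representations -/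
lemma rep_B (σ : ℕ) : rep P.B σ ≤ 2 ^ P.k := by
  unfold rep
  set R := {q : ℕ × ℕ | q.1 ∈ P.B ∧ q.2 ∈ P.B ∧ q.1 + q.2 = σ} with hR
  rcases Set.eq_empty_or_nonempty R with h | ⟨⟨y, y'⟩, ⟨u, hu, hy⟩, ⟨u', hu', hy'⟩, hyy⟩
  · rw [h, Set.ncard_empty]; exact Nat.zero_le _
  simp only at hy hy' hyy
  set e : (Fin P.k → Bool) → ℕ → ℕ → ℕ → ℕ := fun b x y i =>
    if h : i < P.k then (if b ⟨i, h⟩ then x else y) else 0 with he
  set φ : (Fin P.k → Bool) → ℕ × ℕ := fun b =>
    (∑ i ∈ range P.k, P.D i (e b (u i) (u' i) i), ∑ i ∈ range P.k, P.D i (e b (u' i) (u i) i))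
    with hφ
  have hsub : R ⊆ Set.range φ := by
    rintro ⟨x, x'⟩ ⟨⟨t, ht, hx⟩, ⟨t', ht', hx'⟩, hxx⟩
    simp only at hx hx' hxx
    have h1 := P.decode ht ht' hu hu' (by rw [← hx, ← hx', ← hy, ← hy', hxx, hyy])
    refine ⟨fun i => decide (t i = u i), ?_⟩
    rw [hφ]
    simp only [Prod.mk.injEq]
    rw [hx, hx']
    constructor
    · apply sum_congr rfl
      intro i hi
      rw [mem_range] at hi
      congr 1
      rw [he]
      simp only [hi, dite_true, decide_eq_true_eq]
      by_cases h2 : t i = u i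
      · rw [if_pos h2, h2]
      · rw [if_neg h2]
        rcases h1 i hi with h3 | h3
        · exact absurd h3.1 h2
        · exact h3.1.symm
    · apply sum_congr rfl
      intro i hi
      rw [mem_range] at hi
      congr 1
      rw [he]
      simp only [hi, dite_true, decide_eq_true_eq]
      by_cases h2 : t i = u i
      · rw [if_pos h2]
        rcases h1 i hi with h3 | h3
        · exact h3.2.symm
        · omega
      · rw [if_neg h2]
        rcases h1 i hi with h3 | h3
        · exact absurd h3.1 h2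
        · exact h3.2.symm
  calc R.ncard ≤ (Set.range φ).ncard := Set.ncard_le_ncard hsub (Set.finite_range φ)
    _ ≤ Nat.card (Fin P.k → Bool) := by
        rw [← Set.image_univ]
        refine le_trans (Set.ncard_image_le Set.finite_univ) ?_
        rw [Set.ncard_univ]
    _ = 2 ^ P.k := by simp

/-- the elements of level `j` are small -/
lemma Lev_le {j : ℕ} (hj : j ≤ P.k) {y : ℕ} (hy : y ∈ P.Lev j) : 8 * y ≤ 3 * P.G j := by
  obtain ⟨t, ht, rfl⟩ := hy
  rw [P.split]
  have h1 : ∀ j', j' ≤ j → 4 * ∑ i ∈ range j', P.G i * t i ≤ P.G j' := by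
    intro j'
    induction j' with
    | zero => intro _; simp
    | succ j' ih =>
      intro hj'
      have h2 := ih (by omega)
      rw [sum_range_succ, P.hG]
      have h3 : P.G j' * (t j' + 1) ≤ P.G j' * P.s j' := Nat.mul_le_mul_left _ (ht j' (by omega))
      rw [mul_add, mul_one] at h3
      have h4 : P.G j' * (4 * P.s j') = 4 * (P.G j' * P.s j') := by ring
      omega
  have h2 := h1 j (le_refl _)
  have h3 := radix_lt (W := P.H) (r := fun i => 2 * P.p i) (k := j)
    (a := fun i => (t i) ^ 2 % P.p i) (P.H_pos 0) P.hH (by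
      intro i _
      have := P.v_lt i (t i)
      beta_reduce
      omega)
  beta_reduce at h3
  have h4 := P.H_mono hj
  have h5 := P.hHG
  have h6 := P.G_mono (Nat.zero_le j)
  omega

/-- the translates of level `j` -/
lemma decomp {j : ℕ} (hj : j ≤ P.k) {x : ℕ} (hx : x ∈ P.B) :
    ∃ t : ℕ → ℕ, (∀ i < P.k, t i < P.s i) ∧ ∃ y ∈ P.Lev j,
      x = y + ∑ i ∈ Ico j P.k, P.D i (t i) := by
  obtain ⟨t, ht, rfl⟩ := hx
  refine ⟨t, ht, ∑ i ∈ range j, P.D i (t i), ⟨t, fun i hi => ht i (by omega), rfl⟩, ?_⟩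
  rw [range_eq_Ico, range_eq_Ico, sum_Ico_consecutive _ (Nat.zero_le _) hj]

lemma comp {j : ℕ} (hj : j ≤ P.k) {t : ℕ → ℕ} (ht : ∀ i < P.k, t i < P.s i) {y : ℕ}
    (hy : y ∈ P.Lev j) : y + ∑ i ∈ Ico j P.k, P.D i (t i) ∈ P.B := by
  obtain ⟨u, hu, rfl⟩ := hy
  refine ⟨fun i => if i < j then u i else t i, ?_, ?_⟩
  · intro i hi
    beta_reduce
    split_ifs with h
    · exact hu i h
    · exact ht i hi
  · rw [range_eq_Ico, range_eq_Ico, ← sum_Ico_consecutive _ (Nat.zero_le _) hj]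
    congr 1
    · apply sum_congr rfl
      intro i hi
      rw [mem_Ico] at hi
      beta_reduce
      rw [if_pos hi.2]
    · apply sum_congr rfl
      intro i hi
      rw [mem_Ico] at hi
      beta_reduce
      rw [if_neg (by omega)]

/-- two translates of level `j` are equal or far apart -/
lemma far {j : ℕ} (hj : j ≤ P.k) {t u : ℕ → ℕ} (ht : ∀ i < P.k, t i < P.s i)
    (hu : ∀ i < P.k, u i < P.s i) :
    ∑ i ∈ Ico j P.k, P.D i (t i) = ∑ i ∈ Ico j P.k, P.D i (u i) ∨
      8 * ∑ i ∈ Ico j P.k, P.D i (t i) + 7 * P.G j < 8 * ∑ i ∈ Ico j P.k, P.D i (u i) ∨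
      8 * ∑ i ∈ Ico j P.k, P.D i (u i) + 7 * P.G j < 8 * ∑ i ∈ Ico j P.k, P.D i (t i) := by
  have hlow : ∀ t : ℕ → ℕ, 8 * ∑ i ∈ Ico j P.k, P.H i * ((t i) ^ 2 % P.p i) < P.G j := by
    intro t
    have h3 := radix_lt (W := P.H) (r := fun i => 2 * P.p i) (k := P.k)
      (a := fun i => (t i) ^ 2 % P.p i) (P.H_pos 0) P.hH (by
        intro i _
        have := P.v_lt i (t i)
        beta_reduce
        omega)
    beta_reduce at h3
    rw [range_eq_Ico, ← sum_Ico_consecutive _ (Nat.zero_le _) hj] at h3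
    have h5 := P.hHG
    have h6 := P.G_mono (Nat.zero_le j)
    omega
  have hdvd : ∀ a : ℕ → ℕ, P.G j ∣ ∑ i ∈ Ico j P.k, P.G i * a i := by
    intro a
    apply Finset.dvd_sum
    intro i hi
    rw [mem_Ico] at hi
    exact Dvd.dvd.mul_right (P.G_dvd hi.1) _
  rw [P.split, P.split]
  have h1 := hlow t
  have h2 := hlow u
  obtain ⟨c, hc⟩ := hdvd t
  obtain ⟨d, hd⟩ := hdvd u
  rcases lt_trichotomy c d with h | h | h
  · right; left
    have h3 : P.G j * (c + 1) ≤ P.G j * d := Nat.mul_le_mul_left _ h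
    rw [mul_add, mul_one] at h3
    rw [hc, hd]
    omega
  · left
    have h3 : ∑ i ∈ Ico j P.k, P.G i * t i = ∑ i ∈ Ico j P.k, P.G i * u i := by
      rw [hc, hd, h]
    have h4 : ∀ w : ℕ → ℕ, ∑ i ∈ range P.k, P.G i * (if i < j then 0 else w i) =
        ∑ i ∈ Ico j P.k, P.G i * w i := by
      intro w
      rw [range_eq_Ico, ← sum_Ico_consecutive _ (Nat.zero_le _) hj]
      have e1 : ∑ i ∈ Ico 0 j, P.G i * (if i < j then 0 else w i) = 0 := by
        apply sum_eq_zero
        intro i hi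
        rw [mem_Ico] at hi
        rw [if_pos hi.2, mul_zero]
      rw [e1, zero_add]
      apply sum_congr rfl
      intro i hi
      rw [mem_Ico] at hi
      rw [if_neg (by omega)]
    have h5 := radix_inj (W := P.G) (r := fun i => 4 * P.s i) (k := P.k)
      (a := fun i => if i < j then 0 else t i) (b := fun i => if i < j then 0 else u i)
      (P.G_pos 0) P.hG
      (by intro i hi; have := ht i hi; beta_reduce; split_ifs <;> omega)
      (by intro i hi; have := hu i hi; beta_reduce; split_ifs <;> omega)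
      (by rw [h4 t, h4 u, h3])
    have h6 : ∀ i ∈ Ico j P.k, t i = u i := by
      intro i hi
      rw [mem_Ico] at hi
      have := h5 i hi.2
      beta_reduce at this
      rwa [if_neg (by omega), if_neg (by omega)] at this
    rw [h3]
    congr 1
    apply sum_congr rfl
    intro i hi
    rw [h6 i hi]
  · right; right
    have h3 : P.G j * (d + 1) ≤ P.G j * c := Nat.mul_le_mul_left _ h
    rw [mul_add, mul_one] at h3
    rw [hc, hd]
    omega

end Par

end Pool.Agent.N508.ET
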