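import Pool.Agent.N508.ET.Gap

/-!
# Blocks of gaps: explicit bounds
-/

set_option autoImplicit false

namespace Pool.Agent.N508.ET

open Finset

lemma blocks_one_pos {a : ℕ → ℕ} {n : ℕ} (hn : 1 ≤ n) : 1 ≤ blocks a n 1 := by
  unfold blocks
  have hfin : ((fun s : ℕ => fun i : Fin 1 => a (s + i + 1) - a (s + i)) ''
      {s | s + 1 ≤ n}).Finite := by
    apply Set.Finite.image
    apply Set.Finite.subset (Set.finite_Iic n)
    intro s hs
    simp only [Set.mem_ofPred_eq] at hs
    simp only [Set.mem_Iic]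
    omega
  have h1 := (Set.ncard_pos hfin).2 ⟨_, 0, by simp only [Set.mem_ofPred_eq]; omega, rfl⟩
  omega

lemma len_pos (a : ℕ → ℕ) (n K j : ℕ) : 1 ≤ len a n K j := by
  induction j with
  | zero => exact le_refl _
  | succ j ih => rw [len]; omega

/-- the lower bound for the number of blocks -/
theorem max_form {A : Set ℕ} {K n : ℕ} {a : ℕ → ℕ} (hK : ∀ s, rep A s ≤ K)
    (hn : 1 ≤ n) (ha : ∀ i < n, a i < a (i + 1)) (hA : ∀ i ≤ n, a i ∈ A) :
    ∃ l, 1 ≤ l ∧ l ≤ n ∧ n * l ^ (Nat.log 2 K) ≤ (K * blocks a n l) ^ (Nat.log 2 K) := by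
  have hK2 := two_le hK hn ha hA
  set k := Nat.log 2 K with hk
  have hk1 : 1 ≤ k := by
    rw [hk]
    exact Nat.log_pos (by norm_num) hK2
  have hlt := lt_len hK (m := k) (Nat.lt_pow_succ_log_self (by norm_num) K) hn ha hA
  by_contra hcon
  push Not at hcon
  set t : ℝ := (n : ℝ) ^ (1 / (k : ℝ)) with ht
  have hn1 : (1 : ℝ) ≤ n := by exact_mod_cast hn
  have htk : t ^ k = n := by
    rw [ht, ← Real.rpow_natCast, ← Real.rpow_mul (by linarith), one_div,
      inv_mul_cancel₀ (by positivity), Real.rpow_one]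
  have ht0 : 0 < t := by rw [ht]; positivity
  have key : ∀ l, 1 ≤ l → l ≤ n → (K : ℝ) * blocks a n l < t * l := by
    intro l hl hln
    have h1 := hcon l hl hln
    have h2 : ((K : ℝ) * blocks a n l) ^ k < (t * l) ^ k := by
      rw [mul_pow t, htk]
      exact_mod_cast h1
    exact lt_of_pow_lt_pow_left₀ k (by positivity) h2
  have hKR : (2 : ℝ) ≤ K := by exact_mod_cast hK2
  have hKt : (K : ℝ) ≤ t := by
    have h1 := key 1 (le_refl _) hn
    have h2 : (1 : ℝ) ≤ blocks a n 1 := by exact_mod_cast blocks_one_pos hn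
    push_cast at h1
    nlinarith
  have ht1 : 1 ≤ t := by linarith
  have hlen : ∀ j, j ≤ k → (len a n K j : ℝ) ≤ t ^ j := by
    intro j
    induction j with
    | zero => intro _; simp [len]
    | succ j ih =>
      intro hj
      have h1 := ih (by omega)
      have h2 : (len a n K j : ℝ) ≤ n := by
        rw [← htk]
        exact le_trans h1 (pow_le_pow_right₀ ht1 (by omega))
      have h3 : len a n K j ≤ n := by exact_mod_cast h2
      have h4 := key (len a n K j) (len_pos a n K j) h3
      have h5 : ((len a n K (j + 1) : ℕ) : ℝ) =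
          len a n K j + ((K : ℝ) - 1) * blocks a n (len a n K j) := by
        rw [len]
        push_cast [Nat.cast_sub (show 1 ≤ K by omega)]
        ring
      rw [h5, pow_succ]
      set G : ℝ := (blocks a n (len a n K j) : ℝ) with hG
      set L : ℝ := (len a n K j : ℝ) with hL
      have hL0 : 0 ≤ L := by rw [hL]; positivity
      have hG0 : 0 ≤ G := by rw [hG]; positivity
      -- `K (K - 1) G ≤ (K - 1) t L`, so `K (L + (K - 1) G) ≤ K L + (K - 1) t L ≤ K t L`
      have h6 : (K : ℝ) * (L + (K - 1) * G) ≤ K * (t * L) := by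
        have h7 : (K - 1 : ℝ) * (K * G) ≤ (K - 1) * (t * L) :=
          mul_le_mul_of_nonneg_left h4.le (by linarith)
        have h8 : (K : ℝ) * L ≤ t * L := mul_le_mul_of_nonneg_right hKt hL0
        nlinarith
      have h9 : L + (K - 1) * G ≤ t * L := le_of_mul_le_mul_left h6 (by linarith)
      calc L + (K - 1) * G ≤ t * L := h9
        _ ≤ t * t ^ j := mul_le_mul_of_nonneg_left h1 (by linarith)
        _ = t ^ j * t := by ring
  have h1 := hlen k (le_refl _)
  rw [htk] at h1
  have h2 : len a n K k ≤ n := by exact_mod_cast h1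
  omega

/-- exponents -/
def ex (C : ℕ) : ℕ → ℕ
  | 0 => 0
  | j + 1 => 1 + C * ex C j

lemma ex_mono {C : ℕ} (hC : 1 ≤ C) {i j : ℕ} (h : i ≤ j) : ex C i ≤ ex C j := by
  induction h with
  | refl => exact le_refl _
  | step _ ih =>
    refine le_trans ih ?_
    rw [ex]
    nlinarith

/-- sets with few blocks of gaps have unbounded representation functions -/
theorem unbounded {A : Set ℕ} {C : ℕ} (h : ∀ ε : ℝ, 0 < ε → ∀ N : ℕ, ∃ (n : ℕ) (a : ℕ → ℕ), N ≤ n ∧
      (∀ i < n, a i < a (i + 1)) ∧ (∀ i ≤ n, a i ∈ A) ∧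
      ∀ l, 1 ≤ l → l ≤ n → (blocks a n l : ℝ) ≤ (n : ℝ) ^ ε * (l : ℝ) ^ C) :
    ∀ K : ℕ, ∃ s, K < rep A s := by
  intro K
  by_contra hcon
  push Not at hcon
  -- enlarge `K` so that `2 ≤ K`
  wlog hK2 : 2 ≤ K generalizing K
  · exact this (K + 2) (fun s => by have := hcon s; omega) (by omega)
  set k := Nat.log 2 K with hk
  set e := ex (C + 1) k + 1 with he
  have he1 : 1 ≤ e := by omega
  have heR : (1 : ℝ) ≤ e := by exact_mod_cast he1
  obtain ⟨n, a, hn, ha, hA, hb⟩ := h (1 / (2 * e)) (by positivity) (K ^ (2 * e))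
  have hn1 : 1 ≤ n := le_trans (Nat.one_le_pow _ _ (by omega)) hn
  have hlt := lt_len hcon (m := k) (Nat.lt_pow_succ_log_self (by norm_num) K) hn1 ha hA
  have hnR : (1 : ℝ) ≤ n := by exact_mod_cast hn1
  have hKR : (2 : ℝ) ≤ K := by exact_mod_cast hK2
  set u : ℝ := (n : ℝ) ^ (1 / (2 * (e : ℝ))) with hu
  have hu1 : 1 ≤ u := Real.one_le_rpow hnR (by positivity)
  set X : ℝ := K * u with hX
  have hX1 : 1 ≤ X := by nlinarith
  have hXn : X ^ e ≤ n := by
    rw [hX, mul_pow]
    have h1 : u ^ (2 * e) = n := by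
      rw [hu, ← Real.rpow_natCast, ← Real.rpow_mul (by linarith)]
      push_cast
      rw [one_div, inv_mul_cancel₀ (by positivity), Real.rpow_one]
    have h2 : (K : ℝ) ^ (2 * e) ≤ n := by exact_mod_cast hn
    have h3 : (K : ℝ) ^ e ≤ u ^ e := by
      have h4 : ((K : ℝ) ^ e) ^ 2 ≤ (u ^ e) ^ 2 := by
        rw [← pow_mul, ← pow_mul, mul_comm e 2, h1]
        exact h2
      exact le_of_sq_le_sq h4 (by positivity)
    calc (K : ℝ) ^ e * u ^ e ≤ u ^ e * u ^ e := mul_le_mul_of_nonneg_right h3 (by positivity)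
      _ = u ^ (2 * e) := by rw [← pow_add, two_mul]
      _ = n := h1
  have hlen : ∀ j, j ≤ k → (len a n K j : ℝ) ≤ X ^ (ex (C + 1) j) := by
    intro j
    induction j with
    | zero => intro _; simp [len, ex]
    | succ j ih =>
      intro hj
      have h1 := ih (by omega)
      have h2 : (len a n K j : ℝ) ≤ n := by
        refine le_trans h1 (le_trans (pow_le_pow_right₀ hX1 ?_) hXn)
        have := ex_mono (C := C + 1) (by omega) (show j ≤ k by omega)
        omega
      have h3 : len a n K j ≤ n := by exact_mod_cast h2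
      have h4 := hb (len a n K j) (len_pos a n K j) h3
      have h5 : ((len a n K (j + 1) : ℕ) : ℝ) =
          len a n K j + ((K : ℝ) - 1) * blocks a n (len a n K j) := by
        rw [len]
        push_cast [Nat.cast_sub (show 1 ≤ K by omega)]
        ring
      rw [h5, ex]
      set G : ℝ := (blocks a n (len a n K j) : ℝ) with hG
      set L : ℝ := (len a n K j : ℝ) with hL
      have hL1 : 1 ≤ L := by rw [hL]; exact_mod_cast len_pos a n K j
      have h6 : L ≤ u * L ^ (C + 1) := by
        have h7 : L ^ 1 ≤ L ^ (C + 1) := pow_le_pow_right₀ hL1 (by omega)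
        rw [pow_one] at h7
        nlinarith
      have h7 : G ≤ u * L ^ (C + 1) := by
        refine le_trans h4 ?_
        apply mul_le_mul_of_nonneg_left _ (by linarith)
        exact pow_le_pow_right₀ hL1 (by omega)
      calc L + (K - 1) * G ≤ u * L ^ (C + 1) + (K - 1) * (u * L ^ (C + 1)) := by
            apply add_le_add h6
            exact mul_le_mul_of_nonneg_left h7 (by linarith)
        _ = X * L ^ (C + 1) := by rw [hX]; ring
        _ ≤ X * (X ^ (ex (C + 1) j)) ^ (C + 1) := by
            apply mul_le_mul_of_nonneg_left _ (by linarith)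
            exact pow_le_pow_left₀ (by linarith) h1 _
        _ = X ^ (1 + (C + 1) * ex (C + 1) j) := by
            rw [← pow_mul, pow_add, pow_one, mul_comm (ex (C + 1) j)]
  have h1 : (len a n K k : ℝ) ≤ n := by
    refine le_trans (hlen k (le_refl _)) (le_trans (pow_le_pow_right₀ hX1 ?_) hXn)
    omega
  have h2 : len a n K k ≤ n := by exact_mod_cast h1
  omega

end Pool.Agent.N508.ET
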