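import Pool.Agent.N508.ET.Gap

/-!
# Blocks of gaps: an example with few blocks
-/

set_option autoImplicit false

namespace Pool.Agent.N508.ET

open Finset

/-- digits in base `q`, replaced by powers of two in base `2 ^ (q + 1)` -/
def exa (q : ℕ) : ℕ → ℕ → ℕ
  | 0, _ => 0
  | k + 1, n => 2 ^ (n % q) + 2 ^ (q + 1) * exa q k (n / q)

lemma div_mod_succ {q n : ℕ} (hq : 1 ≤ q) :
    ((n + 1) % q = 0 ∧ n % q = q - 1 ∧ (n + 1) / q = n / q + 1) ∨
    ((n + 1) % q = n % q + 1 ∧ (n + 1) / q = n / q) := by
  have h1 := Nat.div_add_mod n q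
  have h2 := Nat.mod_lt n (show 0 < q by omega)
  rcases Nat.lt_or_ge (n % q + 1) q with h | h
  · right
    have h3 : n + 1 = (n % q + 1) + q * (n / q) := by omega
    constructor
    · conv_lhs => rw [h3]
      rw [Nat.add_mul_mod_self_left, Nat.mod_eq_of_lt h]
    · conv_lhs => rw [h3]
      rw [Nat.add_mul_div_left _ _ (by omega), Nat.div_eq_of_lt h, zero_add]
  · left
    have h4 : n % q = q - 1 := by omega
    have h3 : n + 1 = q * (n / q + 1) := by
      rw [mul_add, mul_one]
      omega
    refine ⟨?_, h4, ?_⟩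
    · rw [h3, Nat.mul_mod_right]
    · conv_lhs => rw [h3]
      rw [Nat.mul_div_cancel_left _ (by omega)]

lemma exa_lt {q : ℕ} (hq : 1 ≤ q) (k : ℕ) : ∀ n, n + 1 < q ^ k → exa q k n < exa q k (n + 1) := by
  induction k with
  | zero => intro n hn; simp at hn
  | succ k ih =>
    intro n hn
    rw [exa, exa]
    rcases div_mod_succ (n := n) hq with ⟨h1, h2, h3⟩ | ⟨h1, h3⟩
    · have h4 : n / q + 1 < q ^ k := by
        rw [← h3]
        apply Nat.div_lt_of_lt_mul
        rw [pow_succ] at hn
        rwa [mul_comm]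
      have h5 := ih _ h4
      rw [h1, h2, h3]
      have h6 : 2 ^ (q + 1) * (exa q k (n / q) + 1) ≤ 2 ^ (q + 1) * exa q k (n / q + 1) :=
        Nat.mul_le_mul_left _ h5
      have h7 : 2 ^ (q - 1) ≤ 2 ^ (q + 1) := Nat.pow_le_pow_right (by norm_num) (by omega)
      rw [mul_add, mul_one] at h6
      have h8 : 0 < 2 ^ 0 := by norm_num
      omega
    · rw [h1, h3, pow_succ]
      have := Nat.one_le_two_pow (n := n % q)
      omega

lemma pow_pair : ∀ i j a b : ℕ, 2 ^ i + 2 ^ j = 2 ^ a + 2 ^ b → (i = a ∧ j = b) ∨ (i = b ∧ j = a) := by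
  intro i
  induction i with
  | zero =>
    intro j a b h
    rcases a with _ | a
    · left
      refine ⟨rfl, ?_⟩
      have : 2 ^ j = 2 ^ b := by omega
      exact Nat.pow_right_injective (le_refl 2) this
    · rcases b with _ | b
      · right
        refine ⟨rfl, ?_⟩
        have : 2 ^ j = 2 ^ (a + 1) := by omega
        exact Nat.pow_right_injective (le_refl 2) this
      · rcases j with _ | j
        · have h1 := Nat.one_le_two_pow (n := a)
          have h2 := Nat.one_le_two_pow (n := b)
          rw [pow_succ, pow_succ] at h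
          omega
        · rw [pow_succ, pow_succ, pow_succ] at h
          omega
  | succ i ih =>
    intro j a b h
    rcases j with _ | j
    · rcases a with _ | a
      · right
        refine ⟨?_, rfl⟩
        have : 2 ^ (i + 1) = 2 ^ b := by omega
        exact Nat.pow_right_injective (le_refl 2) this
      · rcases b with _ | b
        · left
          refine ⟨?_, rfl⟩
          have : 2 ^ (i + 1) = 2 ^ (a + 1) := by omega
          exact Nat.pow_right_injective (le_refl 2) this
        · rw [pow_succ, pow_succ, pow_succ] at h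
          omega
    · have h1 := Nat.one_le_two_pow (n := i)
      have h2 := Nat.one_le_two_pow (n := j)
      rcases a with _ | a
      · rcases b with _ | b
        · rw [pow_succ, pow_succ] at h
          omega
        · rw [pow_succ, pow_succ, pow_succ] at h
          omega
      · rcases b with _ | b
        · rw [pow_succ, pow_succ, pow_succ] at h
          omega
        · have h3 : 2 ^ i + 2 ^ j = 2 ^ a + 2 ^ b := by
            rw [pow_succ, pow_succ, pow_succ, pow_succ] at h
            omega
          rcases ih j a b h3 with ⟨h4, h5⟩ | ⟨h4, h5⟩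
          · left; omega
          · right; omega

/-- the set of all values -/
def AF (q k : ℕ) : Finset ℕ := (range (q ^ k)).image (exa q k)

/-- the pairs of powers of two with sum `c` -/
def PF (q c : ℕ) : Finset (ℕ × ℕ) :=
  (((range q).image (fun i => 2 ^ i)) ×ˢ ((range q).image (fun i => 2 ^ i))).filter
    (fun p => p.1 + p.2 = c)

def RF (q k s : ℕ) : Finset (ℕ × ℕ) := ((AF q k) ×ˢ (AF q k)).filter (fun p => p.1 + p.2 = s)

lemma PF_card (q c : ℕ) : (PF q c).card ≤ 2 := by
  rcases Finset.eq_empty_or_nonempty (PF q c) with h | ⟨p, hp⟩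
  · rw [h]; simp
  · have hsub : PF q c ⊆ {p, (p.2, p.1)} := by
      intro r hr
      unfold PF at hp hr
      rw [Finset.mem_filter, Finset.mem_product, Finset.mem_image, Finset.mem_image] at hp hr
      obtain ⟨⟨⟨i, -, hi⟩, j, -, hj⟩, hs⟩ := hp
      obtain ⟨⟨⟨i', -, hi'⟩, j', -, hj'⟩, hs'⟩ := hr
      rw [Finset.mem_insert, Finset.mem_singleton]
      have h1 : 2 ^ i' + 2 ^ j' = 2 ^ i + 2 ^ j := by rw [hi, hj, hi', hj', hs, hs']
      rcases pow_pair i' j' i j h1 with ⟨h2, h3⟩ | ⟨h2, h3⟩
      · left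
        apply Prod.ext
        · rw [← hi', h2, hi]
        · rw [← hj', h3, hj]
      · right
        apply Prod.ext
        · simp only
          rw [← hi', h2, hj]
        · simp only
          rw [← hj', h3, hi]
    exact le_trans (Finset.card_le_card hsub) Finset.card_le_two

lemma AF_succ {q k x : ℕ} (hq : 1 ≤ q) (hx : x ∈ AF q (k + 1)) :
    ∃ i < q, ∃ y ∈ AF q k, x = 2 ^ i + 2 ^ (q + 1) * y := by
  unfold AF at hx
  rw [Finset.mem_image] at hx
  obtain ⟨n, hn, rfl⟩ := hx
  rw [Finset.mem_range] at hn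
  refine ⟨n % q, Nat.mod_lt _ (by omega), exa q k (n / q), ?_, rfl⟩
  unfold AF
  apply Finset.mem_image_of_mem
  rw [Finset.mem_range]
  apply Nat.div_lt_of_lt_mul
  rwa [mul_comm, ← pow_succ]

lemma RF_card {q : ℕ} (hq : 1 ≤ q) (k : ℕ) : ∀ s, (RF q k s).card ≤ 2 ^ k := by
  induction k with
  | zero =>
    intro s
    have h1 : RF q 0 s ⊆ {(0, 0)} := by
      intro p hp
      unfold RF at hp
      rw [Finset.mem_filter, Finset.mem_product] at hp
      obtain ⟨⟨h1, h2⟩, -⟩ := hp
      unfold AF at h1 h2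
      rw [Finset.mem_image] at h1 h2
      obtain ⟨_, -, h1⟩ := h1
      obtain ⟨_, -, h2⟩ := h2
      rw [Finset.mem_singleton]
      exact Prod.ext h1.symm h2.symm
    exact le_trans (Finset.card_le_card h1) (by simp)
  | succ k ih =>
    intro s
    set B := 2 ^ (q + 1) with hB
    have hB0 : 0 < B := by rw [hB]; positivity
    have hpow : ∀ i < q, 2 ^ i ≤ 2 ^ (q - 1) := fun i hi =>
      Nat.pow_le_pow_right (by norm_num) (by omega)
    have hB4 : B = 4 * 2 ^ (q - 1) := by
      rw [hB, show q + 1 = (q - 1) + 2 by omega, pow_add]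
      ring
    have hq1 := Nat.one_le_two_pow (n := q - 1)
    have h1 : (RF q (k + 1) s).card ≤ (PF q (s % B) ×ˢ RF q k (s / B)).card := by
      refine Finset.card_le_card_of_injOn (fun p => ((p.1 % B, p.2 % B), (p.1 / B, p.2 / B))) ?_ ?_
      · intro p hp
        rw [Finset.mem_coe] at hp ⊢
        unfold RF at hp
        rw [Finset.mem_filter, Finset.mem_product] at hp
        obtain ⟨⟨h1, h2⟩, h3⟩ := hp
        obtain ⟨i, hi, y, hy, h4⟩ := AF_succ hq h1
        obtain ⟨i', hi', y', hy', h4'⟩ := AF_succ hq h2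
        rw [← hB] at h4 h4'
        have h5 := hpow i hi
        have h5' := hpow i' hi'
        have e1 : p.1 % B = 2 ^ i := by
          rw [h4, Nat.add_mul_mod_self_left, Nat.mod_eq_of_lt (by omega)]
        have e2 : p.1 / B = y := by
          rw [h4, Nat.add_mul_div_left _ _ hB0, Nat.div_eq_of_lt (by omega), zero_add]
        have e1' : p.2 % B = 2 ^ i' := by
          rw [h4', Nat.add_mul_mod_self_left, Nat.mod_eq_of_lt (by omega)]
        have e2' : p.2 / B = y' := by
          rw [h4', Nat.add_mul_div_left _ _ hB0, Nat.div_eq_of_lt (by omega), zero_add]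
        have e3 : s = (2 ^ i + 2 ^ i') + B * (y + y') := by
          rw [← h3, h4, h4']
          ring
        have e4 : s % B = 2 ^ i + 2 ^ i' := by
          rw [e3, Nat.add_mul_mod_self_left, Nat.mod_eq_of_lt (by omega)]
        have e5 : s / B = y + y' := by
          rw [e3, Nat.add_mul_div_left _ _ hB0, Nat.div_eq_of_lt (by omega), zero_add]
        simp only
        rw [Finset.mem_product, e1, e2, e1', e2', e4, e5]
        constructor
        · unfold PF
          rw [Finset.mem_filter, Finset.mem_product]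
          refine ⟨⟨?_, ?_⟩, rfl⟩
          · exact Finset.mem_image_of_mem _ (Finset.mem_range.2 hi)
          · exact Finset.mem_image_of_mem _ (Finset.mem_range.2 hi')
        · unfold RF
          rw [Finset.mem_filter, Finset.mem_product]
          exact ⟨⟨hy, hy'⟩, rfl⟩
      · intro p _ p' _ h
        simp only [Prod.mk.injEq] at h
        obtain ⟨⟨h1, h2⟩, h3, h4⟩ := h
        apply Prod.ext
        · rw [← Nat.div_add_mod p.1 B, ← Nat.div_add_mod p'.1 B, h1, h3]
        · rw [← Nat.div_add_mod p.2 B, ← Nat.div_add_mod p'.2 B, h2, h4]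
    rw [Finset.card_product] at h1
    calc (RF q (k + 1) s).card ≤ (PF q (s % B)).card * (RF q k (s / B)).card := h1
      _ ≤ 2 * 2 ^ k := Nat.mul_le_mul (PF_card _ _) (ih _)
      _ = 2 ^ (k + 1) := by ring

lemma rep_AF {q : ℕ} (hq : 1 ≤ q) (k s : ℕ) : rep (AF q k : Set ℕ) s ≤ 2 ^ k := by
  refine le_trans ?_ (RF_card hq k s)
  unfold rep
  rw [← Set.ncard_coe_finset]
  apply Set.ncard_le_ncard _ (Finset.finite_toSet _)
  rintro p ⟨h1, h2, h3⟩
  rw [Finset.mem_coe] at h1 h2 ⊢
  unfold RF
  rw [Finset.mem_filter, Finset.mem_product]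
  exact ⟨⟨h1, h2⟩, h3⟩

/-- the gap -/
def gp (q k n : ℕ) : ℕ := exa q k (n + 1) - exa q k n

lemma gp_rec {q : ℕ} (hq : 1 ≤ q) (k n : ℕ) :
    gp q (k + 1) n = if (n + 1) % q = 0
      then 2 ^ (q + 1) * gp q k ((n + 1) / q - 1) - (2 ^ (q - 1) - 1)
      else 2 ^ ((n + 1) % q - 1) := by
  unfold gp
  rw [exa, exa]
  rcases div_mod_succ (n := n) hq with ⟨h1, h2, h3⟩ | ⟨h1, h3⟩
  · rw [if_pos h1, h1, h2, h3, Nat.add_sub_cancel, Nat.mul_sub]
    have h4 := Nat.one_le_two_pow (n := q - 1)
    rw [pow_zero]
    omega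
  · rw [if_neg (by omega), h1, h3, Nat.add_sub_cancel, pow_succ]
    omega

lemma gp_congr {q : ℕ} (hq : 1 ≤ q) (t : ℕ) : ∀ k n n' : ℕ, (n + 1) % q ^ t = (n' + 1) % q ^ t →
    ¬ q ^ t ∣ n + 1 → gp q k n = gp q k n' := by
  induction t with
  | zero => intro k n n' _ h; exact absurd (by simp) h
  | succ t ih =>
    intro k n n' h hnd
    rcases k with _ | k
    · simp [gp, exa]
    · rw [gp_rec hq, gp_rec hq]
      have h1 : (n + 1) % q = (n' + 1) % q := by
        have h2 : q ∣ q ^ (t + 1) := Dvd.intro_left (q ^ t) rfl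
        rw [← Nat.mod_mod_of_dvd (n + 1) h2, ← Nat.mod_mod_of_dvd (n' + 1) h2, h]
      by_cases h2 : (n + 1) % q = 0
      · rw [if_pos h2, if_pos (h1 ▸ h2)]
        congr 2
        have hd : q ∣ n + 1 := Nat.dvd_of_mod_eq_zero h2
        have hd' : q ∣ n' + 1 := Nat.dvd_of_mod_eq_zero (h1 ▸ h2)
        have e1 : 1 ≤ (n + 1) / q := Nat.div_pos (Nat.le_of_dvd (by omega) hd) (by omega)
        have e1' : 1 ≤ (n' + 1) / q := Nat.div_pos (Nat.le_of_dvd (by omega) hd') (by omega)
        apply ih
        · rw [Nat.sub_add_cancel e1, Nat.sub_add_cancel e1']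
          rw [← Nat.mod_mul_right_div_self, ← Nat.mod_mul_right_div_self]
          rw [show q * q ^ t = q ^ (t + 1) by ring, h]
        · rw [Nat.sub_add_cancel e1]
          intro h3
          apply hnd
          obtain ⟨c, hc⟩ := h3
          refine ⟨c, ?_⟩
          rw [← Nat.div_mul_cancel hd, hc]
          ring
      · rw [if_neg h2, if_neg (h1 ▸ h2), h1]

/-- the values of the gaps -/
def GS (q : ℕ) : ℕ → Finset ℕ
  | 0 => {0}
  | k + 1 => (range (q - 1)).image (fun i => 2 ^ i) ∪
      (GS q k).image (fun g => 2 ^ (q + 1) * g - (2 ^ (q - 1) - 1))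

lemma gp_mem {q : ℕ} (hq : 1 ≤ q) (k : ℕ) : ∀ n, gp q k n ∈ GS q k := by
  induction k with
  | zero => intro n; simp [gp, exa, GS]
  | succ k ih =>
    intro n
    rw [gp_rec hq, GS, Finset.mem_union]
    by_cases h : (n + 1) % q = 0
    · right
      rw [if_pos h]
      exact Finset.mem_image_of_mem (fun g => 2 ^ (q + 1) * g - (2 ^ (q - 1) - 1)) (ih _)
    · left
      rw [if_neg h]
      apply Finset.mem_image_of_mem
      rw [Finset.mem_range]
      have := Nat.mod_lt (n + 1) (show 0 < q by omega)
      omega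

lemma GS_card (q k : ℕ) : (GS q k).card ≤ k * (q - 1) + 1 := by
  induction k with
  | zero => simp [GS]
  | succ k ih =>
    rw [GS]
    refine le_trans (Finset.card_union_le _ _) ?_
    have h1 : ((range (q - 1)).image (fun i => 2 ^ i)).card ≤ q - 1 := by
      refine le_trans Finset.card_image_le ?_
      rw [Finset.card_range]
    have h2 : ((GS q k).image (fun g => 2 ^ (q + 1) * g - (2 ^ (q - 1) - 1))).card ≤
        (GS q k).card := Finset.card_image_le
    have h3 : (k + 1) * (q - 1) = k * (q - 1) + (q - 1) := by ring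
    omega

/-- the number of blocks of the example -/
theorem exa_blocks {q k n : ℕ} (hq : 2 ≤ q) (hk : 1 ≤ k) {l : ℕ} (hl : 1 ≤ l) :
    blocks (exa q k) n l ≤ (k + 1) * q * l := by
  classical
  set t := Nat.log q l + 1 with ht
  set Q := q ^ t with hQ
  have hlQ : l < Q := Nat.lt_pow_succ_log_self (by omega) l
  have hQl : Q ≤ q * l := by
    rw [hQ, ht, pow_succ, mul_comm]
    exact Nat.mul_le_mul_left q (Nat.pow_log_le_self q (by omega))
  set w : ℕ → (Fin l → ℕ) := fun s => fun i : Fin l => exa q k (s + i + 1) - exa q k (s + i)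
    with hw
  have hwg : ∀ s (i : Fin l), w s i = gp q k (s + i) := fun s i => rfl
  set U := (range Q).image w with hU
  set V := ((Finset.univ : Finset (Fin l)) ×ˢ GS q k).image
    (fun p => Function.update (w (Q - 1 - p.1)) p.1 p.2) with hV
  have hsub : w '' {s | s + l ≤ n} ⊆ ((U ∪ V : Finset (Fin l → ℕ)) : Set (Fin l → ℕ)) := by
    rintro _ ⟨s, -, rfl⟩
    rw [Finset.mem_coe, Finset.mem_union]
    by_cases h : ∃ i : Fin l, Q ∣ s + i + 1
    · right
      obtain ⟨i0, hi0⟩ := h
      rw [hV, Finset.mem_image]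
      refine ⟨(i0, w s i0), ?_, ?_⟩
      · rw [Finset.mem_product]
        exact ⟨Finset.mem_univ _, gp_mem (by omega) k _⟩
      · simp only
        ext i
        by_cases hi : i = i0
        · subst hi
          rw [Function.update_self]
        · rw [Function.update_of_ne hi, hwg, hwg]
          symm
          have hne : (i : ℕ) ≠ i0 := fun h => hi (Fin.ext h)
          have h1 := i.2
          have h2 := i0.2
          apply gp_congr (by omega) t
          · have h3 : (Q - 1 - i0 + i + 1) + (s + i0 + 1) = Q + (s + i + 1) := by omega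
            have h4 : (Q - 1 - i0 + i + 1) + (s + i0 + 1) ≡ (Q - 1 - i0 + i + 1) + 0 [MOD Q] :=
              Nat.ModEq.add_left _ ((Nat.modEq_zero_iff_dvd).2 hi0)
            have h5 : Q + (s + i + 1) ≡ 0 + (s + i + 1) [MOD Q] :=
              Nat.ModEq.add_right _ ((Nat.modEq_zero_iff_dvd).2 (dvd_refl Q))
            rw [add_zero] at h4
            rw [zero_add] at h5
            rw [h3] at h4
            exact (h5.symm.trans h4)
          · intro hd
            rcases Nat.lt_or_ge i i0 with h3 | h3
            · have h4 := Nat.dvd_sub hi0 hd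
              have h5 := Nat.le_of_dvd (by omega) h4
              omega
            · have h4 := Nat.dvd_sub hd hi0
              have h5 := Nat.le_of_dvd (by omega) h4
              omega
    · left
      push Not at h
      rw [hU, Finset.mem_image]
      refine ⟨s % Q, Finset.mem_range.2 (Nat.mod_lt _ (by omega)), ?_⟩
      ext i
      rw [hwg, hwg]
      symm
      apply gp_congr (by omega) t _ _ _ _ (h i)
      have h1 : s + i + 1 ≡ s % Q + i + 1 [MOD Q] :=
        Nat.ModEq.add_right _ (Nat.ModEq.add_right _ (Nat.mod_modEq s Q).symm)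
      exact h1
  have h1 : blocks (exa q k) n l ≤ (U ∪ V).card := by
    unfold blocks
    rw [← Set.ncard_coe_finset]
    exact Set.ncard_le_ncard hsub (Finset.finite_toSet _)
  have h2 : U.card ≤ Q := by
    refine le_trans Finset.card_image_le ?_
    rw [Finset.card_range]
  have h3 : V.card ≤ l * (k * q) := by
    refine le_trans Finset.card_image_le ?_
    rw [Finset.card_product, Finset.card_univ, Fintype.card_fin]
    apply Nat.mul_le_mul_left
    refine le_trans (GS_card q k) ?_
    have : k * q = k * (q - 1) + k := by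
      obtain ⟨r, rfl⟩ : ∃ r, q = r + 1 := ⟨q - 1, by omega⟩
      simp
      ring
    omega
  calc blocks (exa q k) n l ≤ (U ∪ V).card := h1
    _ ≤ U.card + V.card := Finset.card_union_le _ _
    _ ≤ q * l + l * (k * q) := by omega
    _ = (k + 1) * q * l := by ring

/-- the example -/
theorem example_set {K q : ℕ} (hK : 2 ≤ K) (hq : 1 ≤ q) :
    ∃ (A : Set ℕ) (a : ℕ → ℕ) (n : ℕ), (∀ s, rep A s ≤ K) ∧ n + 1 = q ^ Nat.log 2 K ∧
      (∀ i < n, a i < a (i + 1)) ∧ (∀ i ≤ n, a i ∈ A) ∧
      ∀ l, 1 ≤ l → blocks a n l ≤ (Nat.log 2 K + 1) * q * l := by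
  set k := Nat.log 2 K with hk
  have hk1 : 1 ≤ k := by
    rw [hk]
    exact Nat.log_pos (by norm_num) hK
  have hqk : 1 ≤ q ^ k := Nat.one_le_pow _ _ hq
  refine ⟨AF q k, exa q k, q ^ k - 1, ?_, by omega, ?_, ?_, ?_⟩
  · intro s
    refine le_trans (rep_AF hq k s) ?_
    rw [hk]
    exact Nat.pow_log_le_self 2 (by omega)
  · intro i hi
    exact exa_lt hq k i (by omega)
  · intro i hi
    rw [Finset.mem_coe]
    unfold AF
    apply Finset.mem_image_of_mem
    rw [Finset.mem_range]
    omega
  · intro l hl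
    rcases Nat.lt_or_ge 1 q with h | h
    · exact exa_blocks h hk1 hl
    · have hq1 : q = 1 := by omega
      subst hq1
      unfold blocks
      rw [one_pow]
      have : {s : ℕ | s + l ≤ 1 - 1} = ∅ := by
        ext s
        simp only [Set.mem_ofPred_eq, Set.mem_empty_iff_false, iff_false]
        omega
      rw [this, Set.image_empty, Set.ncard_empty]
      exact Nat.zero_le _

end Pool.Agent.N508.ET
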