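import Pool.Agent.N508.ET.FStep

/-!
# Factor complexity and cubes with superincreasing differences: iteration
-/

set_option autoImplicit false

namespace Pool.Agent.N508.ET

open Finset Classical Filter Topology Asymptotics
open Pool.Agent.W227.FC (fac mem_fac fac_sub cplx cnt growth complexity cplx_le cplx_two cnt_eq)

lemma fbase (A : Set ℕ) (X : ℕ) : St A X 0 (cnt A X) := by
  have key : ∀ s, fac A 1 s = {0} ↔ s ∈ A := by
    intro s
    constructor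
    · intro h
      have : (0 : ℕ) ∈ fac A 1 s := by rw [h]; simp
      rw [mem_fac] at this
      simpa using this.2
    · intro h
      ext i
      rw [mem_fac, Finset.mem_singleton]
      constructor
      · rintro ⟨h1, -⟩
        omega
      · rintro rfl
        exact ⟨by norm_num, by simpa using h⟩
  refine ⟨1, {0}, 0, [], ?_, by simp, rfl, trivial, ?_⟩
  · unfold Pool.Agent.W227.FC.cnt
    apply le_of_eq
    congr 1
    ext s
    rw [Finset.mem_filter, Finset.mem_filter, key]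
  · intro s h
    rw [key] at h
    simpa [cubeSet] using h

theorem fiter {A : Set ℕ} {K : ℕ} (hK : ∀ n, rep A n ≤ K) (hK1 : 1 ≤ K) {γ C : ℝ} (hγ : 1 ≤ γ)
    (hC : 0 < C) (hp : ∀ L : ℕ, 1 ≤ L → (cplx A L : ℝ) ≤ C * (L : ℝ) ^ γ) (j : ℕ) {τ τ' : ℝ}
    (hτ' : 0 < τ') (hτ : τ' < 1 - γ * (1 - τ)) :
    ∀ᶠ X : ℕ in atTop, ∀ N : ℕ, (X : ℝ) ^ τ ≤ N → St A X j N →
      ∃ N' : ℕ, (X : ℝ) ^ τ' ≤ N' ∧ St A X (j + 1) N' := by
  have hγ0 : 0 < γ := by linarith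
  set σ := 1 - (1 - τ') / γ with hσ
  have hσ0 : 0 < σ := by
    rw [hσ, sub_pos, div_lt_one hγ0]
    linarith
  have hστ : σ < τ := by
    have h1 : 1 - τ < (1 - τ') / γ := by
      rw [lt_div_iff₀ hγ0]
      linarith
    rw [hσ]
    linarith
  have hσγ : σ * γ + (1 - γ) = τ' := by
    rw [hσ]
    field_simp
    ring
  set τ1 := (σ + τ) / 2 with hτ1
  have hστ1 : σ < τ1 := by rw [hτ1]; linarith
  have hτ1τ : τ1 < τ := by rw [hτ1]; linarith
  set D := C * (5 : ℝ) ^ γ with hD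
  have hD0 : 0 < D := by positivity
  set E := D ^ (1 / γ) with hE
  have hE0 : 0 < E := by positivity
  have hEγ : E ^ γ = D := by
    rw [hE, ← Real.rpow_mul hD0.le, one_div, inv_mul_cancel₀ hγ0.ne', Real.rpow_one]
  have hKR : (1 : ℝ) ≤ K := by exact_mod_cast hK1
  have h1 : ∀ᶠ x : ℝ in atTop, (1 / E : ℝ) ≤ x ^ σ :=
    (tendsto_rpow_atTop hσ0).eventually_ge_atTop _
  have h1' : ∀ᶠ x : ℝ in atTop, (2 * K : ℝ) ≤ x ^ (τ - τ1) :=
    (tendsto_rpow_atTop (by linarith)).eventually_ge_atTop _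
  have h2 := (tendsto_natCast_atTop_atTop (R := ℝ)).eventually
    (h1.and (h1'.and (eventually_ge_atTop (1 : ℝ))))
  filter_upwards [h2, growth hσ0.le hστ1 hE0] with X hX hgr N hN hSt
  obtain ⟨hX1, hX1', hX2⟩ := hX
  have hX0 : (0 : ℝ) < X := by linarith
  have hEX : 1 ≤ E * (X : ℝ) ^ σ := by
    rw [div_le_iff₀ hE0] at hX1
    linarith
  have hlog0 : (0 : ℝ) ≤ (Nat.log 2 X : ℝ) := by positivity
  obtain ⟨n, b, L', N', hn, hNb, hbn, hL1, hL', hnb, hnext⟩ := fstep (κ := Nat.log 2 X + 1)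
    (Nat.lt_pow_succ_log_self (by norm_num) X).le hK hK1 hSt
  -- lower bound for `b`
  have hb : E * (X : ℝ) ^ σ ≤ b := by
    have h3 : (N : ℝ) ≤ 2 * K * (((Nat.log 2 X : ℝ) + 1) * (b + 1) + 1) := by
      exact_mod_cast hNb
    have h4 : 2 * (K : ℝ) * ((E * (X : ℝ) ^ σ + 1) * ((Nat.log 2 X : ℝ) + 1) + 1) ≤ N := by
      refine le_trans ?_ hN
      calc 2 * (K : ℝ) * ((E * (X : ℝ) ^ σ + 1) * ((Nat.log 2 X : ℝ) + 1) + 1)
          ≤ (X : ℝ) ^ (τ - τ1) * (X : ℝ) ^ τ1 := by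
            apply mul_le_mul hX1' hgr (by positivity) (by positivity)
        _ = (X : ℝ) ^ τ := by
            rw [← Real.rpow_add hX0]
            congr 1
            ring
    have h5 := le_trans h4 h3
    have h6 := le_of_mul_le_mul_left h5 (by linarith)
    have h7 : (E * (X : ℝ) ^ σ + 1) * ((Nat.log 2 X : ℝ) + 1) ≤
        (b + 1) * ((Nat.log 2 X : ℝ) + 1) := by linarith
    have h8 := le_of_mul_le_mul_right h7 (by linarith)
    linarith
  have hb1 : (1 : ℝ) ≤ b := le_trans hEX hb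
  have hb1' : 1 ≤ b := by exact_mod_cast hb1
  refine ⟨N', ?_, hnext hb1'⟩
  have hn1 : (1 : ℝ) ≤ n := by exact_mod_cast hn
  have hbn' : (b : ℝ) * n ≤ X := by exact_mod_cast hbn
  have h3 : (n : ℝ) * b ≤ D * (n : ℝ) ^ γ * N' := by
    have h4 : (n : ℝ) * b ≤ cplx A L' * N' := by exact_mod_cast hnb
    have h5 : (cplx A L' : ℝ) ≤ C * ((5 : ℝ) ^ γ * (n : ℝ) ^ γ) := by
      refine le_trans (hp L' hL1) ?_
      apply mul_le_mul_of_nonneg_left _ hC.le
      rw [← Real.mul_rpow (by norm_num) (by linarith)]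
      apply Real.rpow_le_rpow (by positivity) _ (by linarith)
      exact_mod_cast hL'
    calc (n : ℝ) * b ≤ cplx A L' * N' := h4
      _ ≤ C * ((5 : ℝ) ^ γ * (n : ℝ) ^ γ) * N' := by
          apply mul_le_mul_of_nonneg_right h5 (by positivity)
      _ = D * (n : ℝ) ^ γ * N' := by rw [hD]; ring
  have hnpos : (0 : ℝ) < n := by linarith
  have hbpos : (0 : ℝ) < b := by linarith
  have h4 : (b : ℝ) * (n : ℝ) ^ (1 - γ) ≤ D * N' := by
    have h5 : (n : ℝ) ^ (1 - γ) = n / (n : ℝ) ^ γ := by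
      rw [Real.rpow_sub hnpos, Real.rpow_one]
    rw [h5]
    rw [mul_div_assoc', div_le_iff₀ (by positivity)]
    linarith
  have h6 : ((X : ℝ) / b) ^ (1 - γ) ≤ (n : ℝ) ^ (1 - γ) := by
    apply Real.rpow_le_rpow_of_nonpos hnpos _ (by linarith)
    rw [le_div_iff₀ hbpos]
    linarith
  have h7 : (b : ℝ) * ((X : ℝ) / b) ^ (1 - γ) = (b : ℝ) ^ γ * (X : ℝ) ^ (1 - γ) := by
    rw [Real.div_rpow hX0.le hbpos.le]
    have : (b : ℝ) ^ (1 - γ) = b / (b : ℝ) ^ γ := by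
      rw [Real.rpow_sub hbpos, Real.rpow_one]
    rw [this]
    have hbγ : (0 : ℝ) < (b : ℝ) ^ γ := by positivity
    field_simp
  have h8 : D * (X : ℝ) ^ τ' ≤ D * N' := by
    calc D * (X : ℝ) ^ τ' = (E * (X : ℝ) ^ σ) ^ γ * (X : ℝ) ^ (1 - γ) := by
          rw [Real.mul_rpow hE0.le (by positivity), hEγ, ← Real.rpow_mul hX0.le, mul_assoc D,
            ← Real.rpow_add hX0, hσγ]
      _ ≤ (b : ℝ) ^ γ * (X : ℝ) ^ (1 - γ) := by
          apply mul_le_mul_of_nonneg_right _ (by positivity)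
          exact Real.rpow_le_rpow (by positivity) hb (by linarith)
      _ = (b : ℝ) * ((X : ℝ) / b) ^ (1 - γ) := h7.symm
      _ ≤ (b : ℝ) * (n : ℝ) ^ (1 - γ) := by
          apply mul_le_mul_of_nonneg_left h6 hbpos.le
      _ ≤ D * N' := h4
  exact le_of_mul_le_mul_left h8 hD0

theorem fstates {A : Set ℕ} {K : ℕ} (hK : ∀ n, rep A n ≤ K) (hK1 : 1 ≤ K) {γ C α : ℝ}
    (hγ : 1 ≤ γ) (hC : 0 < C)
    (hp : ∀ L : ℕ, 1 ≤ L → (cplx A L : ℝ) ≤ C * (L : ℝ) ^ γ) (j : ℕ) :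
    ∀ τ : ℝ, 0 < τ → τ < 1 - γ ^ j * (1 - α) →
      ∀ᶠ X : ℕ in atTop, (X : ℝ) ^ α ≤ cnt A X →
        ∃ N : ℕ, (X : ℝ) ^ τ ≤ N ∧ St A X j N := by
  induction j with
  | zero =>
    intro τ hτ hτα
    filter_upwards [eventually_ge_atTop 1] with X hX hA
    refine ⟨cnt A X, le_trans ?_ hA, fbase A X⟩
    apply Real.rpow_le_rpow_of_exponent_le (by exact_mod_cast hX)
    simp only [pow_zero, one_mul] at hτα
    linarith
  | succ j ih =>
    intro τ' hτ' hlt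
    have hγ0 : 0 < γ := by linarith
    have h1 : γ ^ j * (1 - α) < (1 - τ') / γ := by
      rw [lt_div_iff₀ hγ0]
      rw [pow_succ] at hlt
      linarith
    obtain ⟨θ, hθ1, hθ2⟩ := exists_between h1
    have h2 : (1 - τ') / γ < 1 := by
      rw [div_lt_one hγ0]
      linarith
    have h3 := ih (1 - θ) (by linarith) (by linarith)
    have h4 := fiter hK hK1 hγ hC hp j (τ := 1 - θ) (τ' := τ') hτ' (by
      have : θ * γ < 1 - τ' := by rwa [lt_div_iff₀ hγ0] at hθ2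
      linarith)
    filter_upwards [h3, h4] with X h5 h6 hA
    obtain ⟨N, hN, hSt⟩ := h5 hA
    exact h6 N hN hSt

/-- A set with `r_A ≤ K`, at least `X ^ α` elements below `X` for arbitrarily large `X`, and with
at most `C L ^ γ` factors of length `L`, contains superincreasing cubes of every dimension `m + 1`
with `γ ^ m (1 - α) < 1`. -/
theorem fexists_cube {A : Set ℕ} {K : ℕ} (hK : ∀ n, rep A n ≤ K) (hK1 : 1 ≤ K) {γ C α : ℝ}
    (hγ : 1 ≤ γ) (hp : ∀ L : ℕ, 1 ≤ L → (cplx A L : ℝ) ≤ C * (L : ℝ) ^ γ)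
    (hA : ∃ᶠ X : ℕ in atTop, (X : ℝ) ^ α ≤ cnt A X) (m : ℕ) (hm : γ ^ m * (1 - α) < 1) :
    ∃ (a : ℕ) (l : List ℕ), l.length = m + 1 ∧ Sup l ∧ a ∈ cubeSet A l := by
  have hC' : 0 < max C 1 := lt_of_lt_of_le one_pos (le_max_right _ _)
  have hp' : ∀ L : ℕ, 1 ≤ L → (cplx A L : ℝ) ≤ max C 1 * (L : ℝ) ^ γ := by
    intro L hL
    refine le_trans (hp L hL) ?_
    apply mul_le_mul_of_nonneg_right (le_max_left _ _) (by positivity)
  have hτ : 0 < (1 - γ ^ m * (1 - α)) / 2 := by linarith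
  have h1 := fstates (α := α) hK hK1 hγ hC' hp' m ((1 - γ ^ m * (1 - α)) / 2) hτ (by linarith)
  have hbig : ∀ᶠ X : ℕ in atTop, (2 * K + 1 : ℝ) ≤ (X : ℝ) ^ ((1 - γ ^ m * (1 - α)) / 2) :=
    (tendsto_natCast_atTop_atTop (R := ℝ)).eventually
      ((tendsto_rpow_atTop hτ).eventually_ge_atTop _)
  obtain ⟨X, hX, h2, h3⟩ := (hA.and_eventually (h1.and hbig)).exists
  obtain ⟨N, hN, hSt⟩ := h2 hX
  have h4 : (2 * K + 1 : ℝ) ≤ N := le_trans h3 hN
  have h5 : 2 * K + 1 ≤ N := by exact_mod_cast h4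
  exact flast hK hK1 hSt (by omega)

/-- Main theorem. -/
theorem fmain {A B : Set ℕ} {K : ℕ} {α γ : ℝ} (hBA : B ⊆ A) (hK : ∀ n, rep A n ≤ K)
    (hγ : 1 ≤ γ) (hm : γ ^ Nat.log 2 K * (1 - α) < 1)
    (hB : ∃ᶠ N : ℕ in atTop, (N : ℝ) ^ α ≤ (B ∩ Set.Iio N).ncard) :
    ∃ᶠ L : ℕ in atTop, (L : ℝ) ^ γ < complexity B L := by
  by_contra hcon
  rw [not_frequently] at hcon
  have hp : ∀ᶠ L : ℕ in atTop, (complexity B L : ℝ) ≤ (L : ℝ) ^ γ := by
    filter_upwards [hcon] with L hL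
    exact not_lt.1 hL
  -- `K ≥ 1`
  have hK1 : 1 ≤ K := by
    obtain ⟨N, hN, hN1⟩ := (hB.and_eventually (eventually_ge_atTop 1)).exists
    have h1 : (0 : ℝ) < (N : ℝ) ^ α := by
      have : (0 : ℝ) < N := by exact_mod_cast hN1
      positivity
    have h2 : (0 : ℝ) < (B ∩ Set.Iio N).ncard := lt_of_lt_of_le h1 hN
    have h3 : (B ∩ Set.Iio N).ncard ≠ 0 := by
      intro h
      rw [h] at h2
      simp at h2
    obtain ⟨a, ha⟩ := Set.nonempty_of_ncard_ne_zero h3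
    have h4 := card_le_rep (A := A) (n := a + a) {a} (by
      intro x hx
      rw [Finset.mem_singleton] at hx
      subst hx
      exact ⟨hBA ha.1, by omega, by rw [Nat.add_sub_cancel]; exact hBA ha.1⟩)
    rw [Finset.card_singleton] at h4
    exact le_trans h4 (hK _)
  have hKB : ∀ n, rep B n ≤ K := by
    intro n
    refine le_trans ?_ (hK n)
    unfold rep
    apply Set.ncard_le_ncard _ (rep_finite A n)
    rintro p ⟨h1, h2, h3⟩
    exact ⟨hBA h1, hBA h2, h3⟩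
  obtain ⟨L0, hL0⟩ := eventually_atTop.1 hp
  obtain ⟨a, l, hl, hsup, hc⟩ := fexists_cube hKB hK1 (γ := γ) (C := 2 ^ L0) (α := α) hγ (by
    intro L hL
    have hL1 : (1 : ℝ) ≤ L := by exact_mod_cast hL
    have h1 : (1 : ℝ) ≤ (L : ℝ) ^ γ := Real.one_le_rpow hL1 (by linarith)
    have h2 : (1 : ℝ) ≤ 2 ^ L0 := one_le_pow₀ (by norm_num)
    by_cases h : L0 ≤ L
    · calc (cplx B L : ℝ) ≤ complexity B L := by exact_mod_cast cplx_le B L
        _ ≤ (L : ℝ) ^ γ := hL0 L h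
        _ ≤ 2 ^ L0 * (L : ℝ) ^ γ := by nlinarith
    · have h3 : (cplx B L : ℝ) ≤ 2 ^ L := by exact_mod_cast cplx_two B L
      have h4 : (2 : ℝ) ^ L ≤ 2 ^ L0 := pow_le_pow_right₀ (by norm_num) (by omega)
      calc (cplx B L : ℝ) ≤ 2 ^ L0 := le_trans h3 h4
        _ ≤ 2 ^ L0 * (L : ℝ) ^ γ := by nlinarith) (by
    refine hB.mono ?_
    intro N hN
    rwa [cnt_eq] at hN) (Nat.log 2 K) hm
  have h1 := rep_cube hsup hc
  rw [hl] at h1
  have h2 := hKB (2 * a + l.sum)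
  have h3 : K < 2 ^ (Nat.log 2 K + 1) := Nat.lt_pow_succ_log_self (by norm_num) K
  omega

end Pool.Agent.N508.ET
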