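import Pool.Agent.N508.ET.Gap
import Pool.Agent.W227.FC.Growth

/-!
# Factor complexity and cubes with superincreasing differences: the combinatorial step
-/

set_option autoImplicit false

namespace Pool.Agent.N508.ET

open Finset Classical
open Pool.Agent.W227.FC (fac mem_fac fac_sub cplx exists_fiber gaps)

/-- The state: a word `w` of length `L` with many occurrences below `X` and a cube of dimension `j`
inside each occurrence. -/
def St (A : Set ℕ) (X j N : ℕ) : Prop :=
  ∃ (L : ℕ) (w : Finset ℕ) (x : ℕ) (l : List ℕ),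
    N ≤ ((range X).filter (fun s => fac A L s = w)).card ∧ x + l.sum < L ∧ l.length = j ∧ Sup l ∧
      ∀ s, fac A L s = w → s + x ∈ cubeSet A l

/-- an arithmetic progression with `K + 1` terms gives `K + 1` representations -/
lemma rep_ap {A : Set ℕ} {K u d : ℕ} (hd : 1 ≤ d) (h : ∀ i ≤ K, u + i * d ∈ A) :
    K + 1 ≤ rep A (2 * u + K * d) := by
  have hcard : ((range (K + 1)).image (fun i => u + i * d)).card = K + 1 := by
    rw [Finset.card_image_of_injective, Finset.card_range]
    intro i j hij
    simp only [add_right_inj] at hij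
    exact Nat.eq_of_mul_eq_mul_right (by omega) hij
  rw [← hcard]
  apply card_le_rep
  intro y hy
  rw [Finset.mem_image] at hy
  obtain ⟨i, hi, rfl⟩ := hy
  rw [Finset.mem_range] at hi
  have h2 : i * d ≤ K * d := Nat.mul_le_mul_right d (by omega)
  refine ⟨h i (by omega), by omega, ?_⟩
  have h3 : 2 * u + K * d - (u + i * d) = u + (K - i) * d := by
    have : (K - i) * d = K * d - i * d := Nat.sub_mul K i d
    omega
  rw [h3]
  exact h (K - i) (by omega)

/-- two occurrences of a word at distance `d` with `d * K ≤ L` give a progression -/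
lemma ap_word {A : Set ℕ} {L s d x K : ℕ} (hd : 1 ≤ d) (hdK : d * K ≤ L)
    (h : fac A L s = fac A L (s + d)) (hx : x < L) (hxA : s + x ∈ A) :
    ∀ i ≤ K, (s + x % d) + i * d ∈ A := by
  have key : ∀ u < L, (s + u ∈ A ↔ s + u + d ∈ A) := by
    intro u hu
    have h1 : u ∈ fac A L s ↔ u ∈ fac A L (s + d) := by rw [h]
    rw [mem_fac, mem_fac] at h1
    have h2 : s + d + u = s + u + d := by ring
    rw [h2] at h1
    tauto
  -- descend
  have down : ∀ j, j ≤ x / d → s + (x % d + (x / d - j) * d) ∈ A := by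
    intro j
    induction j with
    | zero =>
      intro _
      rw [Nat.sub_zero, mul_comm, Nat.mod_add_div]
      exact hxA
    | succ j ih =>
      intro hj
      have h1 := ih (by omega)
      have h2 : x % d + (x / d - (j + 1)) * d < L := by
        have h3 : (x / d - (j + 1)) * d ≤ (x / d) * d := Nat.mul_le_mul_right d (by omega)
        have h4 := Nat.mod_add_div x d
        rw [mul_comm] at h4
        omega
      rw [key _ h2]
      have h5 : x / d - j = (x / d - (j + 1)) + 1 := by omega
      rw [h5, add_mul, one_mul] at h1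
      rw [← add_assoc] at h1 ⊢
      rwa [← add_assoc] at h1
  have base : s + x % d ∈ A := by
    have h1 := down (x / d) (le_refl _)
    rw [Nat.sub_self, zero_mul, add_zero] at h1
    exact h1
  intro i
  induction i with
  | zero => intro _; simpa using base
  | succ i ih =>
    intro hi
    have h1 := ih (by omega)
    have h2 : x % d + i * d < L := by
      have h3 := Nat.mod_lt x (show 0 < d by omega)
      have h4 : (i + 1) * d ≤ K * d := Nat.mul_le_mul_right d hi
      rw [add_mul, one_mul] at h4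
      have h5 : K * d = d * K := mul_comm _ _
      omega
    have h6 := (key _ h2).1 (by rwa [← add_assoc])
    rw [← add_assoc] at h6
    rwa [add_mul, one_mul, ← add_assoc]

lemma occ_sep {A : Set ℕ} {K L x s s' : ℕ} {w : Finset ℕ} (hK : ∀ n, rep A n ≤ K) (hx : x < L)
    (hA : ∀ s, fac A L s = w → s + x ∈ A) (h : fac A L s = w) (h' : fac A L s' = w)
    (hs : s < s') : L < (s' - s) * K := by
  by_contra hcon
  push Not at hcon
  have h1 : s + (s' - s) = s' := by omega
  have h2 := ap_word (A := A) (L := L) (s := s) (d := s' - s) (x := x) (K := K) (by omega) hcon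
    (by rw [h1, h, h']) hx (hA s h)
  have h3 := rep_ap (by omega) h2
  have := hK (2 * (s + x % (s' - s)) + K * (s' - s))
  omega

/-- the distances are larger than `L` -/
def Far (L : ℕ) (T : Finset ℕ) : Prop := ∀ s ∈ T, ∀ s' ∈ T, s < s' → s + L < s'

/-- thinning of a set of occurrences -/
lemma thin {T : Finset ℕ} {K L : ℕ} (hK : 1 ≤ K)
    (hT : ∀ s ∈ T, ∀ s' ∈ T, s < s' → L < (s' - s) * K) :
    ∃ T' ⊆ T, T.card ≤ 2 * K * T'.card ∧ ∀ s ∈ T', ∀ s' ∈ T', s < s' → s + L < s' := by
  set F := T.powerset.filter (fun T' => Far L T') with hF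
  have hne : F.Nonempty := ⟨∅, by
    rw [hF, Finset.mem_filter, Finset.mem_powerset]
    exact ⟨Finset.empty_subset _, by simp [Far]⟩⟩
  obtain ⟨T', hT', hmax⟩ := Finset.exists_max_image F Finset.card hne
  rw [hF, Finset.mem_filter, Finset.mem_powerset] at hT'
  refine ⟨T', hT'.1, ?_, hT'.2⟩
  -- pieces
  have hpiece : ∀ u : ℕ, (T.filter (fun s => u ≤ s ∧ s ≤ u + L)).card ≤ K := by
    intro u
    by_contra hcon
    push Not at hcon
    set O := T.filter (fun s => u ≤ s ∧ s ≤ u + L) with hO
    have hOne : O.Nonempty := Finset.card_pos.1 (by omega)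
    have hOm : ∀ s ∈ O, s ∈ T ∧ u ≤ s ∧ s ≤ u + L := by
      intro s hs
      rw [hO, Finset.mem_filter] at hs
      exact hs
    have h1 := spread (k := K) (δ := L / K + 1) (Nat.succ_pos _) hOne (by omega) (by
      intro x hx y hy hxy
      have h2 := hT x (hOm x hx).1 y (hOm y hy).1 hxy
      have h3 : L / K < y - x := by
        rw [Nat.div_lt_iff_lt_mul (by omega)]
        exact h2
      omega)
    have h2 : L < K * (L / K + 1) := Nat.lt_mul_div_succ L (by omega)
    have h3 := (hOm _ (O.min'_mem hOne)).2.1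
    have h4 := (hOm _ (O.max'_mem hOne)).2.2
    omega
  have hcover : T ⊆ T'.biUnion (fun t => (T.filter (fun s => t ≤ s ∧ s ≤ t + L)) ∪
      (T.filter (fun s => t - L ≤ s ∧ s ≤ t - L + L))) := by
    intro s hs
    by_contra hcon
    have hcon' : ∀ t ∈ T', ¬ (t ≤ s ∧ s ≤ t + L) ∧ ¬ (s ≤ t ∧ t ≤ s + L) := by
      intro t ht
      constructor
      · intro h
        apply hcon
        rw [Finset.mem_biUnion]
        refine ⟨t, ht, ?_⟩
        rw [Finset.mem_union, Finset.mem_filter]
        exact Or.inl ⟨hs, h⟩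
      · intro h
        apply hcon
        rw [Finset.mem_biUnion]
        refine ⟨t, ht, ?_⟩
        rw [Finset.mem_union, Finset.mem_filter, Finset.mem_filter]
        exact Or.inr ⟨hs, by omega⟩
    have hsT' : s ∉ T' := fun h => (hcon' s h).1 ⟨le_refl _, by omega⟩
    have h1 : insert s T' ∈ F := by
      rw [hF, Finset.mem_filter, Finset.mem_powerset]
      refine ⟨Finset.insert_subset hs hT'.1, ?_⟩
      intro a ha b hb hab
      rw [Finset.mem_insert] at ha hb
      rcases ha with rfl | ha <;> rcases hb with rfl | hb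
      · omega
      · have := (hcon' b hb).2
        omega
      · have := (hcon' a ha).1
        omega
      · exact hT'.2 a ha b hb hab
    have h2 := hmax _ h1
    rw [Finset.card_insert_of_notMem hsT'] at h2
    omega
  calc T.card ≤ _ := Finset.card_le_card hcover
    _ ≤ T'.card * (2 * K) := by
        apply Finset.card_biUnion_le_card_mul
        intro t _
        refine le_trans (Finset.card_union_le _ _) ?_
        have h1 := hpiece t
        have h2 := hpiece (t - L)
        omega
    _ = 2 * K * T'.card := mul_comm _ _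

/-- The step. -/
theorem fstep {A : Set ℕ} {X κ K j N : ℕ} (hX : X ≤ 2 ^ κ) (hK : ∀ n, rep A n ≤ K) (hK1 : 1 ≤ K)
    (h : St A X j N) :
    ∃ n b L' N' : ℕ, 1 ≤ n ∧ N ≤ 2 * K * (κ * (b + 1) + 1) ∧ b * n ≤ X ∧ 1 ≤ L' ∧
      L' ≤ 5 * n ∧ n * b ≤ cplx A L' * N' ∧ (1 ≤ b → St A X (j + 1) N') := by
  obtain ⟨L, w, x, l, hcard, hxL, hl, hsup, hcube⟩ := h
  set T₀ := (range X).filter (fun s => fac A L s = w) with hT₀
  have hT₀m : ∀ s ∈ T₀, s < X ∧ fac A L s = w := by
    intro s hs
    rw [hT₀, Finset.mem_filter, Finset.mem_range] at hs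
    exact hs
  have hxA : ∀ s, fac A L s = w → s + x ∈ A := by
    intro s hs
    have := cube_sums (hcube s hs) (zero_mem_sums l)
    rwa [add_zero] at this
  obtain ⟨T, hTsub, hTcard, hTsep⟩ := thin (T := T₀) (K := K) (L := L) hK1 (by
    intro s hs s' hs' hss
    exact occ_sep hK (by omega) hxA (hT₀m s hs).2 (hT₀m s' hs').2 hss)
  have hTX : ∀ t ∈ T, t < X := fun t ht => (hT₀m t (hTsub ht)).1
  have hTw : ∀ t ∈ T, fac A L t = w := fun t ht => (hT₀m t (hTsub ht)).2
  by_cases h2 : 2 ≤ T.card
  swap
  · refine ⟨1, 0, 1, 0, le_refl _, ?_, by omega, le_refl _, by omega, by omega, by omega⟩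
    have h3 : N ≤ 2 * K * T.card := le_trans hcard hTcard
    have h4 : 2 * K * T.card ≤ 2 * K * (κ * (0 + 1) + 1) := Nat.mul_le_mul_left _ (by omega)
    omega
  obtain ⟨i, B, nx, hBne, hBcard, hB⟩ := gaps T X κ hTX hX h2
  set n := 2 ^ i with hn
  have hn1 : 1 ≤ n := Nat.one_le_two_pow
  have hpow : 2 ^ (i + 1) = 2 * n := by rw [pow_succ, hn]; ring
  have hBsep : ∀ t ∈ B, ∀ t' ∈ B, t < t' → t + n ≤ t' := by
    intro t ht t' ht' htt
    obtain ⟨h1, h2, h3, h4, h5⟩ := hB t ht
    have h6 := (hB t' ht').1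
    by_contra hcon
    exact h5 t' htt (by omega) h6
  set B' := B.erase (B.min' hBne) with hB'
  have hB'card : B'.card + 1 = B.card := by
    rw [hB', Finset.card_erase_of_mem (B.min'_mem hBne)]
    have := Finset.card_pos.2 hBne
    omega
  have hB'n : ∀ t ∈ B', n ≤ t := by
    intro t ht
    rw [hB', Finset.mem_erase] at ht
    have h1 := B.min'_le t ht.2
    have h2 := hBsep _ (B.min'_mem hBne) t ht.2 (lt_of_le_of_ne h1 (Ne.symm ht.1))
    omega
  have hB'B : ∀ t ∈ B', t ∈ B := fun t ht => (Finset.mem_erase.1 ht).2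
  have hNb : N ≤ 2 * K * (κ * (B'.card + 1) + 1) := by
    have h3 : N ≤ 2 * K * T.card := le_trans hcard hTcard
    have h4 : T.card ≤ κ * (B'.card + 1) + 1 := by
      rw [hB'card]
      omega
    exact le_trans h3 (Nat.mul_le_mul_left _ h4)
  -- the windows
  set V := (B' ×ˢ range n).image (fun p => p.1 - p.2) with hV
  have hinj : Set.InjOn (fun p : ℕ × ℕ => p.1 - p.2) (B' ×ˢ range n : Finset (ℕ × ℕ)) := by
    rintro ⟨t, k⟩ hp ⟨t', k'⟩ hp' heq
    rw [Finset.mem_coe, Finset.mem_product, Finset.mem_range] at hp hp'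
    simp only at heq hp hp'
    have h1 := hB'n t hp.1
    have h2 := hB'n t' hp'.1
    rcases lt_trichotomy t t' with h3 | h3 | h3
    · have := hBsep t (hB'B t hp.1) t' (hB'B t' hp'.1) h3
      omega
    · subst h3
      have : k = k' := by omega
      rw [this]
    · have := hBsep t' (hB'B t' hp'.1) t (hB'B t hp.1) h3
      omega
  have hVcard : V.card = B'.card * n := by
    rw [hV, Finset.card_image_of_injOn hinj, Finset.card_product, Finset.card_range]
  have hVX : V ⊆ range X := by
    intro s hs
    rw [hV, Finset.mem_image] at hs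
    obtain ⟨⟨t, k⟩, hp, rfl⟩ := hs
    rw [Finset.mem_product] at hp
    simp only at hp ⊢
    have := hTX t (hB t (hB'B t hp.1)).1
    rw [Finset.mem_range]
    omega
  have hLn : L < 2 * n := by
    obtain ⟨t, ht⟩ := hBne
    obtain ⟨h1, h2, h3, h4, h5⟩ := hB t ht
    have := hTsep t h1 (nx t) h2 (by omega)
    omega
  set L' := 3 * n + L with hL'
  by_cases hb : 1 ≤ B'.card
  swap
  · have hb0 : B'.card = 0 := by omega
    refine ⟨n, 0, 1, 0, hn1, ?_, by omega, le_refl _, by omega, by omega, by omega⟩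
    rw [hb0] at hNb
    exact hNb
  have hVne : V.Nonempty := by
    rw [← Finset.card_pos, hVcard]
    exact Nat.mul_pos hb (by omega)
  obtain ⟨w', hw', hcw, hwne⟩ := exists_fiber V
    ((range L').powerset.filter (fun w => ∃ s, fac A L' s = w)) (fun s => fac A L' s) (by
      intro s _
      rw [Finset.mem_filter, Finset.mem_powerset]
      refine ⟨?_, s, rfl⟩
      intro i hi
      rw [mem_fac] at hi
      rw [Finset.mem_range]
      exact hi.1) hVne
  refine ⟨n, B'.card, L', (V.filter (fun s => fac A L' s = w')).card, hn1, hNb, ?_, by omega,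
    by omega, ?_, ?_⟩
  · rw [← hVcard]
    calc V.card ≤ (range X).card := Finset.card_le_card hVX
      _ = X := Finset.card_range X
  · rw [mul_comm n, ← hVcard]
    exact hcw
  · intro _
    obtain ⟨s0, hs0⟩ := hwne
    rw [Finset.mem_filter, hV, Finset.mem_image] at hs0
    obtain ⟨⟨⟨t, k⟩, hp, hs0'⟩, hs0w⟩ := hs0
    rw [Finset.mem_product, Finset.mem_range] at hp
    simp only at hp hs0'
    obtain ⟨h1, h2, h3, h4, h5⟩ := hB t (hB'B t hp.1)
    have htn := hB'n t hp.1
    have hfar := hTsep t h1 (nx t) h2 (by omega)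
    set g := nx t - t with hg
    have hgn : n ≤ g := by omega
    have hg2 : g < 2 * n := by omega
    have hgL : L < g := by omega
    have hst : s0 + k = t := by omega
    have hfac : ∀ s, fac A L' s = w' → ∀ y, y + L ≤ L' → fac A L (s + y) = fac A L (s0 + y) := by
      intro s hs y hy
      exact fac_sub (by rw [hs, hs0w]) hy
    have hocc1 : ∀ s, fac A L' s = w' → fac A L (s + k) = w := by
      intro s hs
      rw [hfac s hs k (by omega), hst]
      exact hTw t h1
    have hocc2 : ∀ s, fac A L' s = w' → fac A L (s + k + g) = w := by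
      intro s hs
      rw [add_assoc, hfac s hs (k + g) (by omega), ← add_assoc, hst, hg,
        Nat.add_sub_cancel' (by omega)]
      exact hTw _ h2
    refine ⟨L', w', x + k, g :: l, ?_, ?_, by simp [hl], ⟨by omega, hsup⟩, ?_⟩
    · apply Finset.card_le_card
      intro s hs
      rw [Finset.mem_filter] at hs ⊢
      exact ⟨hVX hs.1, hs.2⟩
    · rw [List.sum_cons]
      omega
    · intro s hs
      show s + (x + k) ∈ cubeSet A l ∧ s + (x + k) + g ∈ cubeSet A l
      constructor
      · have := hcube _ (hocc1 s hs)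
        rwa [show s + k + x = s + (x + k) by ring] at this
      · have := hcube _ (hocc2 s hs)
        rwa [show s + k + g + x = s + (x + k) + g by ring] at this

/-- the last difference: from a state with more than `2 K` occurrences one gets a cube of one more
dimension -/
theorem flast {A : Set ℕ} {X K j N : ℕ} (hK : ∀ n, rep A n ≤ K) (hK1 : 1 ≤ K)
    (h : St A X j N) (hN : 2 * K < N) :
    ∃ (t : ℕ) (l : List ℕ), l.length = j + 1 ∧ Sup l ∧ t ∈ cubeSet A l := by
  obtain ⟨L, w, x, l, hcard, hxL, hl, hsup, hcube⟩ := h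
  set T₀ := (range X).filter (fun s => fac A L s = w) with hT₀
  have hT₀m : ∀ s ∈ T₀, s < X ∧ fac A L s = w := by
    intro s hs
    rw [hT₀, Finset.mem_filter, Finset.mem_range] at hs
    exact hs
  have hxA : ∀ s, fac A L s = w → s + x ∈ A := by
    intro s hs
    have := cube_sums (hcube s hs) (zero_mem_sums l)
    rwa [add_zero] at this
  obtain ⟨T, hTsub, hTcard, hTsep⟩ := thin (T := T₀) (K := K) (L := L) hK1 (by
    intro s hs s' hs' hss
    exact occ_sep hK (by omega) hxA (hT₀m s hs).2 (hT₀m s' hs').2 hss)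
  have h1 : 1 < T.card := by
    by_contra hcon
    have h2 : 2 * K * T.card ≤ 2 * K * 1 := Nat.mul_le_mul_left _ (by omega)
    omega
  obtain ⟨s, hs, s', hs', hne⟩ := Finset.one_lt_card.1 h1
  have key : ∀ s ∈ T, ∀ s' ∈ T, s < s' →
      ∃ (t : ℕ) (l : List ℕ), l.length = j + 1 ∧ Sup l ∧ t ∈ cubeSet A l := by
    intro s hs s' hs' hlt
    have h2 := hTsep s hs s' hs' hlt
    refine ⟨s + x, (s' - s) :: l, by simp [hl], ⟨by omega, hsup⟩,
      hcube s (hT₀m s (hTsub hs)).2, ?_⟩
    have h3 := hcube s' (hT₀m s' (hTsub hs')).2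
    rwa [show s' + x = s + x + (s' - s) by omega] at h3
  rcases lt_or_gt_of_ne hne with h6 | h6
  · exact key s hs s' hs' h6
  · exact key s' hs' s hs h6

end Pool.Agent.N508.ET
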