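import Mathlib

/-!
# Blocks of gaps and cubes (Erdős–Turán problem)
-/

set_option autoImplicit false

namespace Pool.Agent.N508.ET

open Finset

/-- The number of ordered representations `n = x + y`, `x, y ∈ A`. -/
noncomputable def rep (A : Set ℕ) (n : ℕ) : ℕ :=
  {p : ℕ × ℕ | p.1 ∈ A ∧ p.2 ∈ A ∧ p.1 + p.2 = n}.ncard

lemma rep_finite (A : Set ℕ) (n : ℕ) :
    {p : ℕ × ℕ | p.1 ∈ A ∧ p.2 ∈ A ∧ p.1 + p.2 = n}.Finite := by
  apply Set.Finite.subset (Finset.finite_toSet (range (n + 1) ×ˢ range (n + 1)))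
  rintro p ⟨_, _, hp⟩
  rw [Finset.mem_coe, Finset.mem_product, Finset.mem_range, Finset.mem_range]
  omega

lemma card_le_rep {A : Set ℕ} {n : ℕ} (S : Finset ℕ)
    (h : ∀ x ∈ S, x ∈ A ∧ x ≤ n ∧ n - x ∈ A) : S.card ≤ rep A n := by
  have h1 : (S.image (fun x => (x, n - x))).card = S.card := by
    apply Finset.card_image_of_injective
    intro x y hxy
    exact (Prod.ext_iff.1 hxy).1
  rw [← h1, ← Set.ncard_coe_finset]
  apply Set.ncard_le_ncard _ (rep_finite A n)
  intro p hp
  rw [Finset.mem_coe, Finset.mem_image] at hp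
  obtain ⟨x, hx, rfl⟩ := hp
  obtain ⟨h2, h3, h4⟩ := h x hx
  exact ⟨h2, h4, by simp only; omega⟩

/-- `t ∈ cubeSet A l` iff all sums `t + ∑_{i ∈ I} l_i` are in `A`. -/
def cubeSet (A : Set ℕ) : List ℕ → Set ℕ
  | [] => A
  | d :: l => {t | t ∈ cubeSet A l ∧ t + d ∈ cubeSet A l}

/-- superincreasing lists -/
def Sup : List ℕ → Prop
  | [] => True
  | d :: l => l.sum < d ∧ Sup l

/-- the subset sums -/
def sums : List ℕ → Finset ℕ
  | [] => {0}
  | d :: l => sums l ∪ (sums l).image (fun x => x + d)

lemma sums_le {l : List ℕ} {x : ℕ} (h : x ∈ sums l) : x ≤ l.sum := by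
  induction l generalizing x with
  | nil => simp [sums] at h; simp [h]
  | cons d l ih =>
    rw [sums, Finset.mem_union, Finset.mem_image] at h
    rw [List.sum_cons]
    rcases h with h | ⟨y, hy, rfl⟩
    · have := ih h; omega
    · have := ih hy; omega

lemma sums_symm {l : List ℕ} {x : ℕ} (h : x ∈ sums l) : l.sum - x ∈ sums l := by
  induction l generalizing x with
  | nil => simp [sums] at h ⊢
  | cons d l ih =>
    rw [sums, Finset.mem_union, Finset.mem_image] at h ⊢
    rw [List.sum_cons]
    rcases h with h | ⟨y, hy, rfl⟩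
    · right
      refine ⟨l.sum - x, ih h, ?_⟩
      have := sums_le h
      omega
    · left
      have h1 := ih hy
      rwa [show d + l.sum - (y + d) = l.sum - y by omega]

lemma zero_mem_sums (l : List ℕ) : 0 ∈ sums l := by
  induction l with
  | nil => simp [sums]
  | cons d l ih => rw [sums, Finset.mem_union]; exact Or.inl ih

lemma sum_mem_sums (l : List ℕ) : l.sum ∈ sums l := by
  have := sums_symm (zero_mem_sums l)
  simpa using this

lemma sums_card {l : List ℕ} (h : Sup l) : (sums l).card = 2 ^ l.length := by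
  induction l with
  | nil => simp [sums]
  | cons d l ih =>
    rw [sums, Finset.card_union_of_disjoint, Finset.card_image_of_injective, ih h.2,
      List.length_cons, pow_succ]
    · ring
    · intro x y hxy
      simpa using hxy
    · rw [Finset.disjoint_left]
      intro x hx hx'
      rw [Finset.mem_image] at hx'
      obtain ⟨y, hy, rfl⟩ := hx'
      have h1 := sums_le hx
      have h2 := h.1
      omega

lemma cube_sums {A : Set ℕ} {l : List ℕ} {t x : ℕ} (ht : t ∈ cubeSet A l) (hx : x ∈ sums l) :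
    t + x ∈ A := by
  induction l generalizing t x with
  | nil => simp [sums] at hx; subst hx; simpa [cubeSet] using ht
  | cons d l ih =>
    rw [sums, Finset.mem_union, Finset.mem_image] at hx
    rcases hx with h | ⟨y, hy, rfl⟩
    · exact ih ht.1 h
    · have := ih ht.2 hy
      rwa [show t + (y + d) = t + d + y by ring]

theorem rep_cube {A : Set ℕ} {l : List ℕ} {t : ℕ} (hl : Sup l) (ht : t ∈ cubeSet A l) :
    2 ^ l.length ≤ rep A (2 * t + l.sum) := by
  rw [← sums_card hl]
  have h1 : ((sums l).image (fun x => t + x)).card = (sums l).card := by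
    apply Finset.card_image_of_injective
    intro x y hxy
    simpa using hxy
  rw [← h1]
  apply card_le_rep
  intro y hy
  rw [Finset.mem_image] at hy
  obtain ⟨x, hx, rfl⟩ := hy
  have h2 := sums_le hx
  refine ⟨cube_sums ht hx, by omega, ?_⟩
  have h3 := cube_sums ht (sums_symm hx)
  rwa [show 2 * t + l.sum - (t + x) = t + (l.sum - x) by omega]

lemma cube_shift {A B : Set ℕ} {D : ℕ} (h : ∀ y ∈ A, y + D ∈ B) (l : List ℕ) :
    ∀ t ∈ cubeSet A l, t + D ∈ cubeSet B l := by
  induction l with
  | nil => exact h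
  | cons d l ih =>
    intro t ht
    refine ⟨ih t ht.1, ?_⟩
    have := ih _ ht.2
    rwa [show t + D + d = t + d + D by ring]

/-- The number of different blocks of `l` consecutive gaps of `a_0 < a_1 < ... < a_n`. -/
noncomputable def blocks (a : ℕ → ℕ) (n l : ℕ) : ℕ :=
  ((fun s : ℕ => fun i : Fin l => a (s + i + 1) - a (s + i)) '' {s | s + l ≤ n}).ncard

/-- the elements `a_s, ..., a_{s + L}` -/
def W (a : ℕ → ℕ) (s L : ℕ) : Set ℕ := {y | ∃ i ≤ L, y = a (s + i)}

lemma mono_of {a : ℕ → ℕ} {n : ℕ} (ha : ∀ i < n, a i < a (i + 1)) :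
    ∀ j i, i ≤ j → j ≤ n → a i + (j - i) ≤ a j := by
  intro j
  induction j with
  | zero => intro i hi _; rw [Nat.le_zero.1 hi]; omega
  | succ j ih =>
    intro i hi hj
    have h1 := ha j (by omega)
    rcases Nat.lt_or_ge j i with h | h
    · have : i = j + 1 := by omega
      subst this
      omega
    · have := ih i h (by omega)
      omega

lemma shift_of {a : ℕ → ℕ} {n L s s' : ℕ} (ha : ∀ i < n, a i < a (i + 1)) (hs : s + L ≤ n)
    (hs' : s' + L ≤ n)
    (hw : (fun i : Fin L => a (s + i + 1) - a (s + i)) =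
      (fun i : Fin L => a (s' + i + 1) - a (s' + i))) :
    ∀ i ≤ L, a (s + i) + a s' = a (s' + i) + a s := by
  intro i
  induction i with
  | zero => intro _; rw [add_zero, add_zero]; omega
  | succ i ih =>
    intro hi
    have h1 := congrFun hw ⟨i, by omega⟩
    simp only at h1
    have h2 := ih (by omega)
    have h3 := ha (s + i) (by omega)
    have h4 := ha (s' + i) (by omega)
    rw [← add_assoc, ← add_assoc]
    omega

/-- separated sets -/
lemma spread {O : Finset ℕ} {k δ : ℕ} (hδ : 1 ≤ δ) (hO : O.Nonempty) (hk : k + 1 ≤ O.card)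
    (hsep : ∀ x ∈ O, ∀ y ∈ O, x < y → x + δ ≤ y) : O.min' hO + k * δ ≤ O.max' hO := by
  set u := O.min' hO with hu
  set v := O.max' hO with hv
  have huv : u ≤ v := O.min'_le_max' hO
  have hmaps : ∀ x ∈ O, (x - u) / δ ∈ range ((v - u) / δ + 1) := by
    intro x hx
    rw [Finset.mem_range, Nat.lt_succ_iff]
    apply Nat.div_le_div_right
    have := O.le_max' x hx
    omega
  have hinj : ∀ x ∈ O, ∀ y ∈ O, (x - u) / δ = (y - u) / δ → x = y := by
    have key : ∀ x ∈ O, ∀ y ∈ O, x < y → (x - u) / δ ≠ (y - u) / δ := by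
      intro x hx y hy hxy heq
      have h1 := hsep x hx y hy hxy
      have h2 : u ≤ x := O.min'_le x hx
      have h3 : (x - u + δ) / δ ≤ (y - u) / δ := Nat.div_le_div_right (by omega)
      rw [Nat.add_div_right _ (by omega)] at h3
      omega
    intro x hx y hy heq
    rcases lt_trichotomy x y with h | h | h
    · exact absurd heq (key x hx y hy h)
    · exact h
    · exact absurd heq.symm (key y hy x hx h)
  have h1 : O.card ≤ (range ((v - u) / δ + 1)).card :=
    Finset.card_le_card_of_injOn (fun x => (x - u) / δ) (by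
      intro x hx
      exact hmaps x hx) (by
      intro x hx y hy h
      exact hinj x hx y hy h)
  rw [Finset.card_range] at h1
  have h2 : k ≤ (v - u) / δ := by omega
  have h3 := (Nat.le_div_iff_mul_le (by omega)).1 h2
  omega

/-- Two occurrences of a long block at a short distance give a long arithmetic progression. -/
lemma progression {A : Set ℕ} {K n L x p : ℕ} {a : ℕ → ℕ} (hK : ∀ s, rep A s ≤ K)
    (ha : ∀ i < n, a i < a (i + 1)) (hA : ∀ i ≤ n, a i ∈ A) (hp : 1 ≤ p)
    (hpK : p * (K - 1) ≤ L) (hK1 : 1 ≤ K) (hx : x + p + L ≤ n)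
    (hw : (fun i : Fin L => a (x + i + 1) - a (x + i)) =
      (fun i : Fin L => a (x + p + i + 1) - a (x + p + i))) : False := by
  have hsh := shift_of ha (by omega) hx hw
  have hmono := mono_of ha
  obtain ⟨d, hd⟩ : ∃ d, a (x + p) = a x + d := by
    have := hmono (x + p) x (by omega) (by omega)
    exact ⟨a (x + p) - a x, by omega⟩
  have hd1 : 1 ≤ d := by
    have := hmono (x + p) x (by omega) (by omega)
    omega
  have hle : ∀ i, i ≤ K → i * p ≤ p + L := by
    intro i hi
    have h1 : i * p ≤ K * p := Nat.mul_le_mul_right p hi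
    have h2 : K * p = (K - 1) * p + p := by
      obtain ⟨k, rfl⟩ : ∃ k, K = k + 1 := ⟨K - 1, by omega⟩
      simp
      ring
    have h3 : (K - 1) * p = p * (K - 1) := by ring
    omega
  have hAP : ∀ i, i ≤ K → a (x + i * p) = a x + i * d := by
    intro i
    induction i with
    | zero => intro _; simp
    | succ i ih =>
      intro hi
      have h1 := ih (by omega)
      have h2 := hle (i + 1) hi
      have h4 : i * p ≤ L := by
        have : (i + 1) * p = i * p + p := by ring
        omega
      have h3 := hsh (i * p) h4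
      have h5 : x + (i + 1) * p = x + p + i * p := by ring
      rw [h5]
      have h6 : (i + 1) * d = i * d + d := by ring
      omega
  have hcard : ((range (K + 1)).image (fun i => a x + i * d)).card = K + 1 := by
    rw [Finset.card_image_of_injective, Finset.card_range]
    intro i j hij
    simp only [add_right_inj] at hij
    exact Nat.eq_of_mul_eq_mul_right (by omega) hij
  have h1 := card_le_rep (A := A) (n := 2 * a x + K * d)
    ((range (K + 1)).image (fun i => a x + i * d)) (by
      intro y hy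
      rw [Finset.mem_image] at hy
      obtain ⟨i, hi, rfl⟩ := hy
      rw [Finset.mem_range] at hi
      have h2 : i * d ≤ K * d := Nat.mul_le_mul_right d (by omega)
      refine ⟨?_, by omega, ?_⟩
      · rw [← hAP i (by omega)]
        apply hA
        have := hle i (by omega)
        omega
      · have h3 : 2 * a x + K * d - (a x + i * d) = a x + (K - i) * d := by
          have : (K - i) * d = K * d - i * d := Nat.sub_mul K i d
          omega
        rw [h3, ← hAP (K - i) (by omega)]
        apply hA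
        have := hle (K - i) (by omega)
        omega)
  rw [hcard] at h1
  have := hK (2 * a x + K * d)
  omega

lemma W_sub {A : Set ℕ} {a : ℕ → ℕ} {n s L : ℕ} (hA : ∀ i ≤ n, a i ∈ A) (h : s + L ≤ n) :
    W a s L ⊆ A := by
  rintro y ⟨i, hi, rfl⟩
  exact hA _ (by omega)

lemma W_mono {a : ℕ → ℕ} {s L s' L' : ℕ} (h1 : s ≤ s') (h2 : s' + L' ≤ s + L) :
    W a s' L' ⊆ W a s L := by
  rintro y ⟨i, hi, rfl⟩
  exact ⟨s' - s + i, by omega, by congr 1; omega⟩

lemma cube_mono {A B : Set ℕ} (h : A ⊆ B) (l : List ℕ) : cubeSet A l ⊆ cubeSet B l := by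
  intro t ht
  have := cube_shift (A := A) (B := B) (D := 0) (fun y hy => h hy) l t ht
  simpa using this

/-- The inductive step: from cubes in all windows of `L` gaps to cubes of one more dimension in all
windows of `L + (K - 1) * blocks` gaps. -/
theorem step {A : Set ℕ} {K n L j : ℕ} {a : ℕ → ℕ} (hK : ∀ s, rep A s ≤ K) (hK2 : 2 ≤ K)
    (ha : ∀ i < n, a i < a (i + 1)) (hA : ∀ i ≤ n, a i ∈ A)
    (h : ∀ s, s + L ≤ n → ∃ (x : ℕ) (l : List ℕ), l.length = j ∧ Sup l ∧ x ∈ cubeSet (W a s L) l) :
    ∀ s, s + (L + (K - 1) * blocks a n L) ≤ n →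
      ∃ (x : ℕ) (l : List ℕ), l.length = j + 1 ∧ Sup l ∧
        x ∈ cubeSet (W a s (L + (K - 1) * blocks a n L)) l := by
  classical
  intro s hs
  set w : ℕ → (Fin L → ℕ) := fun s => fun i : Fin L => a (s + i + 1) - a (s + i) with hw
  set R := (range (n + 1 - L)).image w with hR
  have hG : blocks a n L = R.card := by
    unfold blocks
    rw [← Set.ncard_coe_finset]
    congr 1
    rw [hR, Finset.coe_image]
    congr 1
    ext t
    simp only [Set.mem_ofPred_eq, Finset.coe_range, Set.mem_Iio]
    omega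
  set G := blocks a n L with hGdef
  set T := Finset.Icc s (s + (K - 1) * G) with hT
  have hTc : T.card = (K - 1) * G + 1 := by
    rw [hT, Nat.card_Icc]
    omega
  obtain ⟨y, -, hy⟩ := Finset.exists_lt_card_fiber_of_mul_lt_card_of_maps_to (s := T) (t := R)
    (f := w) (n := K - 1) (by
      intro t ht
      rw [hT, Finset.mem_Icc] at ht
      rw [hR]
      apply Finset.mem_image_of_mem
      rw [Finset.mem_range]
      omega) (by
      rw [hTc, ← hG, mul_comm]
      omega)
  set O := T.filter (fun t => w t = y) with hO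
  have hOne : O.Nonempty := Finset.card_pos.1 (by omega)
  have hOm : ∀ t ∈ O, s ≤ t ∧ t ≤ s + (K - 1) * G ∧ w t = y := by
    intro t ht
    rw [hO, Finset.mem_filter, hT, Finset.mem_Icc] at ht
    exact ⟨ht.1.1, ht.1.2, ht.2⟩
  have hmono := mono_of ha
  -- the first and the last occurrence are far apart
  have hfar : O.min' hOne + L < O.max' hOne := by
    by_contra hcon
    push Not at hcon
    set δ := L / (K - 1) + 1 with hδ
    have hnot : ¬ (∀ x ∈ O, ∀ z ∈ O, x < z → x + δ ≤ z) := by
      intro hsep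
      have h1 := spread (k := K - 1) (δ := δ) (Nat.succ_pos _) hOne (by omega) hsep
      have h2 : L < (K - 1) * δ := by
        rw [hδ]
        exact Nat.lt_mul_div_succ L (by omega)
      omega
    push Not at hnot
    obtain ⟨x, hx, z, hz, hxz, hlt⟩ := hnot
    obtain ⟨hx1, hx2, hx3⟩ := hOm x hx
    obtain ⟨hz1, hz2, hz3⟩ := hOm z hz
    have hp : (z - x) * (K - 1) ≤ L := by
      have h1 : z - x ≤ L / (K - 1) := by omega
      exact (Nat.le_div_iff_mul_le (by omega)).1 h1
    refine progression hK ha hA (x := x) (p := z - x) (L := L) (by omega) hp (by omega)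
      (by omega) ?_
    have h1 : x + (z - x) = z := by omega
    rw [h1]
    exact hx3.trans hz3.symm
  set o := O.min' hOne with ho
  set o' := O.max' hOne with ho'
  obtain ⟨ho1, ho2, ho3⟩ := hOm o (O.min'_mem hOne)
  obtain ⟨ho1', ho2', ho3'⟩ := hOm o' (O.max'_mem hOne)
  obtain ⟨x, l, hl, hsup, hx⟩ := h o (by omega)
  have hsh := shift_of ha (s := o) (s' := o') (L := L) (by omega) (by omega)
    (ho3.trans ho3'.symm)
  have h1 := hmono o' (o + L) (by omega) (by omega)
  have h2 := hmono (o + L) o (by omega) (by omega)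
  set D := a o' - a o with hD
  have hx' := cube_shift (A := W a o L) (B := W a o' L) (D := D) (by
    rintro y ⟨i, hi, rfl⟩
    refine ⟨i, hi, ?_⟩
    have := hsh i hi
    omega) l x hx
  have hxlow : a o ≤ x := by
    have h3 := cube_sums hx (zero_mem_sums l)
    obtain ⟨i, hi, h4⟩ := h3
    have h5 := hmono (o + i) o (by omega) (by omega)
    omega
  have hxup : x + l.sum ≤ a (o + L) := by
    have h3 := cube_sums hx (sum_mem_sums l)
    obtain ⟨i, hi, h4⟩ := h3
    have h5 := hmono (o + L) (o + i) (by omega) (by omega)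
    omega
  refine ⟨x, D :: l, by simp [hl], ⟨by omega, hsup⟩, ?_, ?_⟩
  · exact cube_mono (W_mono ho1 (by omega)) l hx
  · exact cube_mono (W_mono ho1' (by omega)) l hx'

/-- The window lengths `ℓ_1 = 1`, `ℓ_{j+1} = ℓ_j + (K - 1) * blocks(ℓ_j)` (shifted index). -/
noncomputable def len (a : ℕ → ℕ) (n K : ℕ) : ℕ → ℕ
  | 0 => 1
  | j + 1 => len a n K j + (K - 1) * blocks a n (len a n K j)

lemma two_le {A : Set ℕ} {K n : ℕ} {a : ℕ → ℕ} (hK : ∀ s, rep A s ≤ K)
    (hn : 1 ≤ n) (ha : ∀ i < n, a i < a (i + 1)) (hA : ∀ i ≤ n, a i ∈ A) : 2 ≤ K := by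
  have h0 : a 0 < a 1 := ha 0 (by omega)
  have h1 := card_le_rep (A := A) (n := a 0 + a 1) {a 0, a 1} (by
    intro x hx
    rw [Finset.mem_insert, Finset.mem_singleton] at hx
    rcases hx with rfl | rfl
    · exact ⟨hA 0 (by omega), by omega, by
        rw [show a 0 + a 1 - a 0 = a 1 by omega]; exact hA 1 (by omega)⟩
    · exact ⟨hA 1 (by omega), by omega, by
        rw [show a 0 + a 1 - a 1 = a 0 by omega]; exact hA 0 (by omega)⟩)
  rw [Finset.card_pair (by omega)] at h1
  exact le_trans h1 (hK _)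

theorem cubes {A : Set ℕ} {K n : ℕ} {a : ℕ → ℕ} (hK : ∀ s, rep A s ≤ K) (hK2 : 2 ≤ K)
    (ha : ∀ i < n, a i < a (i + 1)) (hA : ∀ i ≤ n, a i ∈ A) (j : ℕ) :
    ∀ s, s + len a n K j ≤ n →
      ∃ (x : ℕ) (l : List ℕ), l.length = j + 1 ∧ Sup l ∧ x ∈ cubeSet (W a s (len a n K j)) l := by
  induction j with
  | zero =>
    intro s hs
    simp only [len] at hs ⊢
    have h1 := ha s (by omega)
    refine ⟨a s, [a (s + 1) - a s], rfl, ⟨by simp; omega, trivial⟩, ?_, ?_⟩
    · exact ⟨0, by omega, rfl⟩
    · show a s + (a (s + 1) - a s) ∈ W a s 1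
      exact ⟨1, le_refl _, by omega⟩
  | succ j ih => exact step hK hK2 ha hA ih

/-- If `r_A ≤ K < 2 ^ (m + 1)` and `a_0 < ... < a_n` are in `A`, then `n < ℓ_{m+1}`. -/
theorem lt_len {A : Set ℕ} {K n m : ℕ} {a : ℕ → ℕ} (hK : ∀ s, rep A s ≤ K) (hKm : K < 2 ^ (m + 1))
    (hn : 1 ≤ n) (ha : ∀ i < n, a i < a (i + 1)) (hA : ∀ i ≤ n, a i ∈ A) : n < len a n K m := by
  by_contra hcon
  push Not at hcon
  obtain ⟨x, l, hl, hsup, hx⟩ := cubes hK (two_le hK hn ha hA) ha hA m 0 (by omega)
  have h1 := rep_cube hsup (cube_mono (W_sub hA (by omega)) l hx)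
  rw [hl] at h1
  have := hK (2 * x + l.sum)
  omega

end Pool.Agent.N508.ET
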