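import Pool.Agent.N508.ET.Param
import Pool.Agent.W227.FC.Growth

/-!
# An infinite set with a bounded representation function and few factors
-/

set_option autoImplicit false

namespace Pool.Agent.N508.ET

open Finset Filter Topology
open Pool.Agent.W227.FC (complexity)

/-- data of a sequence of blocks -/
structure Seqs where
  k : ℕ
  hk : 1 ≤ k
  B : ℕ → Set ℕ
  N : ℕ → ℕ
  g : ℕ → ℕ
  R : ℕ → ℕ
  R0 : 1 ≤ R 0
  RS : ∀ i, R (i + 1) = R i + 2 * N i
  hRg : ∀ i, R i ≤ g i
  hgN : ∀ i, g i ≤ N i
  hB : ∀ i, ∀ x ∈ B i, x < N i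
  hgap : ∀ i, ∀ x ∈ B i, ∀ y ∈ B i, x < y → x + g i < y
  hrep : ∀ i σ, rep (B i) σ ≤ 2 ^ k

namespace Seqs

variable (S : Seqs)

/-- the shift of the block -/
def M (i : ℕ) : ℕ := S.R i + S.N i

/-- the union -/
def A : Set ℕ := {x | ∃ i, ∃ b ∈ S.B i, x = S.M i + b}

lemma R_pos (i : ℕ) : i + 1 ≤ S.R i := by
  induction i with
  | zero => exact S.R0
  | succ i ih =>
    rw [S.RS]
    have h1 := S.hRg i
    have h2 := S.hgN i
    omega

lemma R_mono {i j : ℕ} (h : i ≤ j) : S.R i ≤ S.R j := by
  induction h with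
  | refl => exact le_refl _
  | step _ ih => refine le_trans ih ?_; rw [S.RS]; omega

lemma R_eq (i : ℕ) : S.R (i + 1) = S.M i + S.N i := by
  rw [S.RS, M]; omega

lemma blk {i b : ℕ} (hb : b ∈ S.B i) : S.M i ≤ S.M i + b ∧ S.M i + b < S.R (i + 1) := by
  have := S.hB i b hb
  rw [S.R_eq]
  omega

lemma RN (i : ℕ) : S.R i ≤ S.N i := le_trans (S.hRg i) (S.hgN i)

/-- the representation function is at most `2 ^ k` -/
theorem rep_A (σ : ℕ) : rep S.A σ ≤ 2 ^ S.k := by
  have h2k : 2 ≤ 2 ^ S.k := by
    calc 2 = 2 ^ 1 := rfl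
      _ ≤ 2 ^ S.k := Nat.pow_le_pow_right (by norm_num) S.hk
  unfold rep
  set T := {q : ℕ × ℕ | q.1 ∈ S.A ∧ q.2 ∈ S.A ∧ q.1 + q.2 = σ} with hT
  rcases Set.eq_empty_or_nonempty T with h | ⟨⟨x, x'⟩, ⟨i, b, hb, hx⟩, ⟨i', b', hb', hx'⟩, hσ⟩
  · rw [h, Set.ncard_empty]; exact Nat.zero_le _
  simp only at hx hx' hσ
  -- ranges for a pair of the same block and for a pair of different blocks
  have same : ∀ m : ℕ, ∀ y ∈ S.B m, ∀ y' ∈ S.B m, (S.M m + y) + (S.M m + y') = σ →
      2 * S.M m ≤ σ ∧ σ < 2 * S.R (m + 1) := by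
    intro m y hy y' hy' h
    have h1 := S.blk hy
    have h2 := S.blk hy'
    omega
  have diff : ∀ m m' : ℕ, m' < m → ∀ y ∈ S.B m, ∀ y' ∈ S.B m', (S.M m + y) + (S.M m' + y') = σ →
      S.M m ≤ σ ∧ σ < 2 * S.M m ∧ S.M m' + y' < S.R m := by
    intro m m' hm y hy y' hy' h
    have h1 := S.blk hy
    have h2 := S.blk hy'
    have h3 := S.R_mono (show m' + 1 ≤ m by omega)
    have h4 := S.R_eq m
    have h5 : S.M m = S.R m + S.N m := rfl
    omega
  have next : ∀ m m' : ℕ, m < m' → 2 * S.R (m + 1) ≤ S.M m' := by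
    intro m m' h
    have h1 := S.R_mono (show m + 1 ≤ m' by omega)
    have h2 := S.RN m'
    have h3 : S.M m' = S.R m' + S.N m' := rfl
    omega
  have hMR : ∀ m, S.M m ≤ S.R (m + 1) := by
    intro m
    have := S.R_eq m
    omega
  -- the two kinds of pairs
  have case_same : ∀ m : ℕ, 2 * S.M m ≤ σ → σ < 2 * S.R (m + 1) → T.ncard ≤ 2 ^ S.k := by
    intro m h1 h2
    refine le_trans ?_ (S.hrep m (σ - 2 * S.M m))
    unfold rep
    have hinj : Set.InjOn (fun q : ℕ × ℕ => (S.M m + q.1, S.M m + q.2))
        {q : ℕ × ℕ | q.1 ∈ S.B m ∧ q.2 ∈ S.B m ∧ q.1 + q.2 = σ - 2 * S.M m} := by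
      rintro ⟨a, b⟩ - ⟨c, d⟩ - h
      simp only [Prod.mk.injEq, add_right_inj] at h
      exact Prod.ext h.1 h.2
    rw [← Set.InjOn.ncard_image hinj]
    apply Set.ncard_le_ncard
    · rintro ⟨y, y'⟩ ⟨⟨l, c, hc, hy⟩, ⟨l', c', hc', hy'⟩, hyy⟩
      simp only at hy hy' hyy
      have hll : l = m ∧ l' = m := by
        rcases lt_trichotomy l l' with h | h | h
        · have h3 := diff l' l h c' hc' c hc (by omega)
          exfalso
          rcases lt_trichotomy l' m with h4 | h4 | h4
          · have := next l' m h4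
            have := hMR l'
            omega
          · subst h4; omega
          · have := next m l' h4
            omega
        · subst h
          have h3 := same l c hc c' hc' (by omega)
          rcases lt_trichotomy l m with h4 | h4 | h4
          · have := next l m h4
            omega
          · exact ⟨h4, h4⟩
          · have := next m l h4
            omega
        · have h3 := diff l l' h c hc c' hc' (by omega)
          exfalso
          rcases lt_trichotomy l m with h4 | h4 | h4
          · have := next l m h4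
            have := hMR l
            omega
          · subst h4; omega
          · have := next m l h4
            omega
      obtain ⟨rfl, rfl⟩ := hll
      refine ⟨(c, c'), ⟨hc, hc', ?_⟩, ?_⟩
      · simp only; omega
      · simp only [hy, hy']
    · exact Set.Finite.image _ (rep_finite (S.B m) (σ - 2 * S.M m))
  have case_diff : ∀ m : ℕ, ∀ c ∈ S.B m, S.M m ≤ σ → σ < 2 * S.M m → S.M m + c ≤ σ →
      σ - (S.M m + c) < S.R m → T.ncard ≤ 2 ^ S.k := by
    intro m c hc h1 h2 h3 h4
    have key : ∀ d ∈ S.B m, S.M m + d ≤ σ → σ - (S.M m + d) < S.R m → d = c := by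
      intro d hd h5 h6
      have hg := S.hRg m
      rcases lt_trichotomy d c with h | h | h
      · have := S.hgap m d hd c hc h
        omega
      · exact h
      · have := S.hgap m c hc d hd h
        omega
    have hsub : T ⊆ {(S.M m + c, σ - (S.M m + c)), (σ - (S.M m + c), S.M m + c)} := by
      rintro ⟨y, y'⟩ ⟨⟨l, d, hd, hy⟩, ⟨l', d', hd', hy'⟩, hyy⟩
      simp only at hy hy' hyy
      rcases lt_trichotomy l l' with h | h | h
      · have h5 := diff l' l h d' hd' d hd (by omega)
        have hl : l' = m := by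
          rcases lt_trichotomy l' m with h6 | h6 | h6
          · have := next l' m h6
            have := hMR l'
            omega
          · exact h6
          · have := next m l' h6
            have := hMR m
            omega
        subst hl
        have h6 := key d' hd' (by omega) (by omega)
        subst h6
        right
        rw [Set.mem_singleton_iff]
        exact Prod.ext (by simp only; omega) (by simp only; omega)
      · subst h
        have h5 := same l d hd d' hd' (by omega)
        exfalso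
        rcases lt_trichotomy l m with h6 | h6 | h6
        · have := next l m h6
          omega
        · subst h6; omega
        · have := next m l h6
          have := hMR m
          omega
      · have h5 := diff l l' h d hd d' hd' (by omega)
        have hl : l = m := by
          rcases lt_trichotomy l m with h6 | h6 | h6
          · have := next l m h6
            have := hMR l
            omega
          · exact h6
          · have := next m l h6
            have := hMR m
            omega
        subst hl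
        have h6 := key d hd (by omega) (by omega)
        subst h6
        left
        exact Prod.ext (by simp only; omega) (by simp only; omega)
    refine le_trans (Set.ncard_le_ncard hsub (Set.toFinite _)) ?_
    refine le_trans (Set.ncard_insert_le _ _) ?_
    rw [Set.ncard_singleton]
    exact h2k
  rcases lt_trichotomy i i' with h | h | h
  · have h1 := diff i' i h b' hb' b hb (by omega)
    exact case_diff i' b' hb' h1.1 h1.2.1 (by omega) (by omega)
  · subst h
    have h1 := same i b hb b' hb' (by omega)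
    exact case_same i h1.1 h1.2
  · have h1 := diff i i' h b hb b' hb' (by omega)
    exact case_diff i b hb h1.1 h1.2.1 (by omega) (by omega)

/-- the number of elements -/
lemma count_A {α : ℝ} (hα : 0 < α) (h : ∀ i, (3 * (S.N i : ℝ)) ^ α ≤ (S.B i).ncard) :
    ∃ᶠ N : ℕ in atTop, (N : ℝ) ^ α ≤ (S.A ∩ Set.Iio N).ncard := by
  rw [frequently_atTop]
  intro N₀
  refine ⟨S.R (N₀ + 1), ?_, ?_⟩
  · have := S.R_pos (N₀ + 1)
    omega
  · have h1 := h N₀
    have h2 : (S.R (N₀ + 1) : ℝ) ≤ 3 * S.N N₀ := by
      have h3 : S.R (N₀ + 1) ≤ 3 * S.N N₀ := by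
        rw [S.RS]
        have := S.RN N₀
        omega
      exact_mod_cast h3
    have h3 : (S.B N₀).ncard ≤ (S.A ∩ Set.Iio (S.R (N₀ + 1))).ncard := by
      have hinj : Set.InjOn (fun b => S.M N₀ + b) (S.B N₀) := by
        intro a _ b _ hab
        simpa using hab
      rw [← Set.InjOn.ncard_image hinj]
      apply Set.ncard_le_ncard
      · rintro _ ⟨b, hb, rfl⟩
        exact ⟨⟨N₀, b, hb, rfl⟩, (S.blk hb).2⟩
      · exact Set.Finite.subset (Set.finite_Iio (S.R (N₀ + 1))) Set.inter_subset_right
    calc (S.R (N₀ + 1) : ℝ) ^ α ≤ (3 * (S.N N₀ : ℝ)) ^ α :=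
          Real.rpow_le_rpow (by positivity) h2 hα.le
      _ ≤ (S.B N₀).ncard := h1
      _ ≤ _ := by exact_mod_cast h3

/-- the sets with at most one element -/
lemma small_card (L : ℕ) : ({W : Set (Fin L) | W.Subsingleton}).ncard ≤ L + 1 := by
  have h1 : {W : Set (Fin L) | W.Subsingleton} ⊆
      {∅} ∪ Set.range (fun i : Fin L => ({i} : Set (Fin L))) := by
    intro W hW
    rcases Set.eq_empty_or_nonempty W with h | ⟨i, hi⟩
    · left; exact h
    · right
      refine ⟨i, ?_⟩
      ext j
      constructor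
      · rintro rfl; exact hi
      · intro hj; exact hW hj hi
  refine le_trans (Set.ncard_le_ncard h1 (Set.toFinite _)) ?_
  refine le_trans (Set.ncard_union_le _ _) ?_
  rw [Set.ncard_singleton, ← Set.image_univ]
  have h2 := Set.ncard_image_le (f := fun i : Fin L => ({i} : Set (Fin L))) Set.finite_univ
  rw [Set.ncard_univ, Nat.card_eq_fintype_card, Fintype.card_fin] at h2
  omega

/-- two elements of `A` at a distance smaller than `L` -/
lemma pair {L l l' b b' : ℕ} (hb : b ∈ S.B l) (hb' : b' ∈ S.B l')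
    (h1 : S.M l + b < S.M l' + b') (h2 : S.M l' + b' < S.M l + b + L) :
    (l = l' ∧ S.g l < L) ∨ (l < l' ∧ S.g l' < L) := by
  have e1 := S.blk hb
  have e2 := S.blk hb'
  rcases lt_trichotomy l l' with h | h | h
  · right
    refine ⟨h, ?_⟩
    have e3 := S.R_mono (show l + 1 ≤ l' by omega)
    have e4 := S.hgN l'
    have e5 : S.M l' = S.R l' + S.N l' := rfl
    omega
  · left
    subst h
    refine ⟨rfl, ?_⟩
    have := S.hgap l b hb b' hb' (by omega)
    omega
  · exfalso
    have e3 := S.R_mono (show l' + 1 ≤ l by omega)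
    have e5 : S.M l = S.R l + S.N l := rfl
    omega

/-- the complexity -/
theorem complexity_A {γ : ℝ} (hγ : 1 ≤ γ)
    (h : ∀ i L : ℕ, 1 ≤ L → ((win (S.B i) L).ncard : ℝ) ≤ 100 * (L : ℝ) ^ γ) (L : ℕ) (hL : 1 ≤ L) :
    (complexity S.A L : ℝ) ≤ 103 * (L : ℝ) ^ γ := by
  classical
  have hL1 : (1 : ℝ) ≤ L := by exact_mod_cast hL
  have hLγ : (L : ℝ) ≤ (L : ℝ) ^ γ := by
    calc (L : ℝ) = (L : ℝ) ^ (1 : ℝ) := (Real.rpow_one _).symm
      _ ≤ _ := Real.rpow_le_rpow_of_exponent_le hL1 hγ
  set w : ℕ → Set (Fin L) := fun s => {i : Fin L | s + (i : ℕ) ∈ S.A} with hw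
  have hcw : complexity S.A L = (Set.range w).ncard := rfl
  have hsmall := small_card L
  -- two different elements of a window
  have two : ∀ s, ¬ (w s).Subsingleton → ∃ i ∈ w s, ∃ j ∈ w s, (i : ℕ) < j := by
    intro s hs
    rw [Set.not_subsingleton_iff] at hs
    obtain ⟨i, hi, j, hj, hij⟩ := hs
    rcases lt_trichotomy (i : ℕ) j with h1 | h1 | h1
    · exact ⟨i, hi, j, hj, h1⟩
    · exact absurd (Fin.ext h1) hij
    · exact ⟨j, hj, i, hi, h1⟩
  by_cases hI : ∃ l, S.g l < L
  swap
  · push Not at hI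
    have hsub : Set.range w ⊆ {W : Set (Fin L) | W.Subsingleton} := by
      rintro _ ⟨s, rfl⟩
      by_contra hcon
      obtain ⟨i, ⟨l, b, hb, hi⟩, j, ⟨l', b', hb', hj⟩, hij⟩ := two s hcon
      have h1 := i.2
      have h2 := j.2
      rcases S.pair (L := L) hb hb' (by omega) (by omega) with h3 | h3
      · have := hI l; omega
      · have := hI l'; omega
    have h1 : complexity S.A L ≤ L + 1 := by
      rw [hcw]
      exact le_trans (Set.ncard_le_ncard hsub (Set.toFinite _)) hsmall
    have h2 : (complexity S.A L : ℝ) ≤ L + 1 := by exact_mod_cast h1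
    linarith
  · -- the last coarse block
    have hbound : ∀ l, S.g l < L → l ≤ L := by
      intro l hl
      have h1 := S.R_pos l
      have h2 := S.hRg l
      omega
    set m := Nat.findGreatest (fun l => S.g l < L) L with hm
    obtain ⟨l₀, hl₀⟩ := hI
    have hm1 : S.g m < L := Nat.findGreatest_spec (P := fun l => S.g l < L) (hbound l₀ hl₀) hl₀
    have hm2 : ∀ l, S.g l < L → l ≤ m := fun l hl => Nat.le_findGreatest (hbound l hl) hl
    have hRm := S.hRg m
    have hsub : Set.range w ⊆ (w '' Set.Iio (S.R m)) ∪ win (S.B m) L ∪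
        {W : Set (Fin L) | W.Subsingleton} := by
      rintro _ ⟨s, rfl⟩
      rcases Nat.lt_or_ge s (S.R m) with hs | hs
      · left; left
        exact ⟨s, hs, rfl⟩
      · by_cases hsub : (w s).Subsingleton
        · right; exact hsub
        · left; right
          -- all elements of the window are in the block `m`
          have hin : ∀ i ∈ w s, ∃ b ∈ S.B m, S.M m + b = s + (i : ℕ) := by
            have hpair : ∀ i ∈ w s, ∀ j ∈ w s, (i : ℕ) < j →
                (∃ b ∈ S.B m, S.M m + b = s + (i : ℕ)) ∧ ∃ b ∈ S.B m, S.M m + b = s + (j : ℕ) := by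
              rintro i ⟨l, b, hb, hi⟩ j ⟨l', b', hb', hj⟩ hij
              have h1 := i.2
              have h2 := j.2
              have e1 := S.blk hb
              have hlm : m ≤ l := by
                by_contra hcon
                push Not at hcon
                have := S.R_mono (show l + 1 ≤ m by omega)
                omega
              rcases S.pair (L := L) hb hb' (by omega) (by omega) with ⟨h3, h4⟩ | ⟨h3, h4⟩
              · have h5 := hm2 l h4
                have h6 : l = m := by omega
                subst h3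
                rw [h6] at hb hb' hi hj
                exact ⟨⟨b, hb, hi.symm⟩, ⟨b', hb', hj.symm⟩⟩
              · have h5 := hm2 l' h4
                omega
            intro i hi
            rw [Set.not_subsingleton_iff] at hsub
            obtain ⟨j, hj, hij⟩ := hsub.exists_ne i
            rcases lt_trichotomy (i : ℕ) j with h1 | h1 | h1
            · exact (hpair i hi j hj h1).1
            · exact absurd (Fin.ext h1.symm) hij
            · exact (hpair j hj i hi h1).2
          refine ⟨(s : ℤ) - S.M m, ?_⟩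
          ext i
          constructor
          · rintro ⟨b, hb, hbi⟩
            refine ⟨m, b, hb, ?_⟩
            omega
          · intro hi
            obtain ⟨b, hb, hbi⟩ := hin i hi
            refine ⟨b, hb, ?_⟩
            omega
    have h1 : complexity S.A L ≤ S.R m + (win (S.B m) L).ncard + (L + 1) := by
      rw [hcw]
      refine le_trans (Set.ncard_le_ncard hsub (Set.toFinite _)) ?_
      refine le_trans (Set.ncard_union_le _ _) ?_
      refine Nat.add_le_add ?_ hsmall
      refine le_trans (Set.ncard_union_le _ _) ?_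
      refine Nat.add_le_add ?_ (le_refl _)
      refine le_trans (Set.ncard_image_le (Set.finite_Iio _)) ?_
      rw [← Finset.coe_Iio, Set.ncard_coe_finset, Nat.card_Iio]
    have h2 : (complexity S.A L : ℝ) ≤ S.R m + (win (S.B m) L).ncard + (L + 1) := by
      exact_mod_cast h1
    have h3 := h m L hL
    have h4 : (S.R m : ℝ) ≤ L := by
      have : S.R m ≤ L := by omega
      exact_mod_cast this
    linarith

end Seqs

/-- The example. -/
theorem example_seq {k : ℕ} (hk : 1 ≤ k) {γ α : ℝ} (hγ : 1 < γ) (hγ2 : γ ≤ 2) (hγk : γ ^ k < 2)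
    (hα0 : 0 < α) (hα : 1 < γ ^ k * (1 - α)) :
    ∃ A : Set ℕ, (∀ σ, rep A σ ≤ 2 ^ k) ∧
      (∃ᶠ N : ℕ in atTop, (N : ℝ) ^ α ≤ (A ∩ Set.Iio N).ncard) ∧
      ∀ L : ℕ, 1 ≤ L → (complexity A L : ℝ) ≤ 103 * (L : ℝ) ^ γ := by
  choose B N g h1 h2 h3 h4 h5 h6 h7 using fun R => exists_block hγ hγ2 hγk hα0 hα R
  let R : ℕ → ℕ := fun i => Nat.rec 1 (fun _ r => r + 2 * N r) i
  let S : Seqs :=
    { k := k
      hk := hk
      B := fun i => B (R i)
      N := fun i => N (R i)
      g := fun i => g (R i)
      R := R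
      R0 := le_refl _
      RS := fun i => rfl
      hRg := fun i => h1 (R i)
      hgN := fun i => h2 (R i)
      hB := fun i => h3 (R i)
      hgap := fun i => h4 (R i)
      hrep := fun i => h5 (R i) }
  exact ⟨S.A, S.rep_A, S.count_A hα0 (fun i => h7 (R i)),
    fun L hL => S.complexity_A hγ.le (fun i => h6 (R i)) L hL⟩

/-- The example, for all exponents. -/
theorem example_all {K : ℕ} (hK : 2 ≤ K) {γ α : ℝ} (hα0 : 0 < α) (hα2 : α < 1 / 2)
    (hγ : 1 ≤ γ) (hα : 1 < γ ^ Nat.log 2 K * (1 - α)) :
    ∃ A : Set ℕ, (∀ σ, rep A σ ≤ K) ∧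
      (∃ᶠ N : ℕ in atTop, (N : ℝ) ^ α ≤ (A ∩ Set.Iio N).ncard) ∧
      ∀ᶠ L : ℕ in atTop, (complexity A L : ℝ) ≤ (L : ℝ) ^ γ := by
  set k := Nat.log 2 K with hk
  have hk1 : 1 ≤ k := by
    rw [hk]
    exact Nat.log_pos (by norm_num) hK
  have hk0 : (k : ℝ) ≠ 0 := by positivity
  have h1 : 1 / (1 - α) < min (γ ^ k) 2 := by
    rw [lt_min_iff]
    constructor
    · rw [div_lt_iff₀ (by linarith)]
      linarith
    · rw [div_lt_iff₀ (by linarith)]
      linarith
  obtain ⟨v, hv1, hv2⟩ := exists_between h1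
  rw [lt_min_iff] at hv2
  have hv0 : 1 < v := by
    refine lt_trans ?_ hv1
    rw [lt_div_iff₀ (by linarith)]
    linarith
  set γ1 : ℝ := v ^ (1 / (k : ℝ)) with hγ1
  have hγ1k : γ1 ^ k = v := by
    rw [hγ1, ← Real.rpow_natCast, ← Real.rpow_mul (by linarith), one_div,
      inv_mul_cancel₀ hk0, Real.rpow_one]
  have hγ11 : 1 < γ1 := Real.one_lt_rpow hv0 (by positivity)
  have hγ12 : γ1 ≤ 2 := by
    have h2 : γ1 ≤ γ1 ^ k := le_self_pow₀ hγ11.le (by omega)
    linarith [hv2.2]
  have hγ1γ : γ1 < γ := by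
    apply lt_of_pow_lt_pow_left₀ k (by linarith)
    rw [hγ1k]
    exact hv2.1
  obtain ⟨A, hA1, hA2, hA3⟩ := example_seq hk1 hγ11 hγ12 (by rw [hγ1k]; exact hv2.2) hα0 (by
    rw [hγ1k]
    rw [div_lt_iff₀ (by linarith)] at hv1
    linarith)
  refine ⟨A, fun σ => le_trans (hA1 σ) ?_, hA2, ?_⟩
  · rw [hk]
    exact Nat.pow_log_le_self 2 (by omega)
  · have h2 : ∀ᶠ x : ℝ in atTop, (103 : ℝ) ≤ x ^ (γ - γ1) :=
      (tendsto_rpow_atTop (by linarith)).eventually_ge_atTop _
    filter_upwards [(tendsto_natCast_atTop_atTop (R := ℝ)).eventually h2,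
      eventually_ge_atTop 1] with L hL hL1
    have hL0 : (0 : ℝ) < L := by exact_mod_cast hL1
    calc (complexity A L : ℝ) ≤ 103 * (L : ℝ) ^ γ1 := hA3 L hL1
      _ ≤ (L : ℝ) ^ (γ - γ1) * (L : ℝ) ^ γ1 := mul_le_mul_of_nonneg_right hL (by positivity)
      _ = (L : ℝ) ^ γ := by
          rw [← Real.rpow_add hL0]
          congr 1
          ring

end Pool.Agent.N508.ET
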