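import Pool.Agent.N508.ET.Win

/-!
# Choice of the parameters of the block
-/

set_option autoImplicit false

namespace Pool.Agent.N508.ET

open Finset Filter Topology

/-- the gaps of the levels -/
noncomputable def Gs (γ : ℝ) (g : ℕ) : ℕ → ℕ
  | 0 => g
  | i + 1 => Gs γ g i * (4 * ⌊(Gs γ g i : ℝ) ^ (γ - 1)⌋₊)

/-- constants -/
noncomputable def Cst (γ : ℝ) : ℕ → ℝ
  | 0 => 1
  | i + 1 => 4 * (Cst γ i) ^ γ

lemma Cst_pos (γ : ℝ) (i : ℕ) : 0 < Cst γ i := by
  induction i with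
  | zero => simp [Cst]
  | succ i ih => rw [Cst]; positivity

lemma Gs_step {γ : ℝ} {g : ℕ} {i : ℕ} (h : 1 ≤ Gs γ g i) :
    (Gs γ g (i + 1) : ℝ) ≤ 4 * (Gs γ g i : ℝ) ^ γ := by
  have hG : (0 : ℝ) < Gs γ g i := by exact_mod_cast h
  rw [Gs]
  push_cast
  have h1 : ((⌊(Gs γ g i : ℝ) ^ (γ - 1)⌋₊ : ℕ) : ℝ) ≤ (Gs γ g i : ℝ) ^ (γ - 1) :=
    Nat.floor_le (by positivity)
  have h2 : (Gs γ g i : ℝ) ^ γ = (Gs γ g i : ℝ) * (Gs γ g i : ℝ) ^ (γ - 1) := by
    rw [Real.rpow_sub hG, Real.rpow_one]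
    field_simp
  rw [h2]
  nlinarith

lemma Gs_lower {γ : ℝ} (hγ : 1 ≤ γ) {g : ℕ} (hg : 1 ≤ g) (i : ℕ) :
    1 ≤ Gs γ g i ∧ (g : ℝ) ^ (γ ^ i) ≤ Gs γ g i := by
  have hgR : (1 : ℝ) ≤ g := by exact_mod_cast hg
  induction i with
  | zero => simpa [Gs] using hg
  | succ i ih =>
    obtain ⟨h1, h2⟩ := ih
    have h1R : (1 : ℝ) ≤ Gs γ g i := by exact_mod_cast h1
    have hG : (0 : ℝ) < Gs γ g i := by linarith
    have h3 : 1 ≤ (Gs γ g i : ℝ) ^ (γ - 1) := Real.one_le_rpow h1R (by linarith)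
    have h4 : (Gs γ g i : ℝ) ^ (γ - 1) ≤ 2 * ((⌊(Gs γ g i : ℝ) ^ (γ - 1)⌋₊ : ℕ) : ℝ) := by
      have h5 := Nat.lt_floor_add_one ((Gs γ g i : ℝ) ^ (γ - 1))
      have h6 : (1 : ℝ) ≤ ((⌊(Gs γ g i : ℝ) ^ (γ - 1)⌋₊ : ℕ) : ℝ) := by
        exact_mod_cast (Nat.one_le_floor_iff _).2 h3
      linarith
    have h5 : (g : ℝ) ^ (γ ^ (i + 1)) ≤ Gs γ g (i + 1) := by
      calc (g : ℝ) ^ (γ ^ (i + 1)) = ((g : ℝ) ^ (γ ^ i)) ^ γ := by
            rw [← Real.rpow_mul (by linarith), pow_succ]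
        _ ≤ (Gs γ g i : ℝ) ^ γ := Real.rpow_le_rpow (by positivity) h2 (by linarith)
        _ = (Gs γ g i : ℝ) * (Gs γ g i : ℝ) ^ (γ - 1) := by
            rw [Real.rpow_sub hG, Real.rpow_one]
            field_simp
        _ ≤ Gs γ g (i + 1) := by
            rw [Gs]
            push_cast
            nlinarith
    refine ⟨?_, h5⟩
    have h6 : (1 : ℝ) ≤ (g : ℝ) ^ (γ ^ (i + 1)) := Real.one_le_rpow hgR (by positivity)
    have h7 : (1 : ℝ) ≤ Gs γ g (i + 1) := le_trans h6 h5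
    exact_mod_cast h7

lemma Gs_upper {γ : ℝ} (hγ : 1 ≤ γ) {g : ℕ} (hg : 1 ≤ g) (i : ℕ) :
    (Gs γ g i : ℝ) ≤ Cst γ i * (g : ℝ) ^ (γ ^ i) := by
  induction i with
  | zero => simp [Gs, Cst]
  | succ i ih =>
    have hgR : (1 : ℝ) ≤ g := by exact_mod_cast hg
    have hC := Cst_pos γ i
    calc (Gs γ g (i + 1) : ℝ) ≤ 4 * (Gs γ g i : ℝ) ^ γ := Gs_step (Gs_lower hγ hg i).1
      _ ≤ 4 * (Cst γ i * (g : ℝ) ^ (γ ^ i)) ^ γ := by
          apply mul_le_mul_of_nonneg_left _ (by norm_num)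
          exact Real.rpow_le_rpow (by positivity) ih (by linarith)
      _ = Cst γ (i + 1) * (g : ℝ) ^ (γ ^ (i + 1)) := by
          rw [Real.mul_rpow hC.le (by positivity), ← Real.rpow_mul (by linarith), Cst, pow_succ]
          ring

/-- the weights of the low digits -/
def Hs (p : ℕ → ℕ) : ℕ → ℕ
  | 0 => 1
  | i + 1 => Hs p i * (2 * p i)

/-- existence of blocks -/
theorem exists_block {k : ℕ} {γ α : ℝ} (hγ : 1 < γ) (hγ2 : γ ≤ 2) (hγk : γ ^ k < 2)
    (hα0 : 0 < α) (hα : 1 < γ ^ k * (1 - α)) (R : ℕ) :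
    ∃ (B : Set ℕ) (N g : ℕ), R ≤ g ∧ g ≤ N ∧ (∀ x ∈ B, x < N) ∧
      (∀ x ∈ B, ∀ y ∈ B, x < y → x + g < y) ∧ (∀ σ, rep B σ ≤ 2 ^ k) ∧
      (∀ L : ℕ, 1 ≤ L → ((win B L).ncard : ℝ) ≤ 100 * (L : ℝ) ^ γ) ∧
      (3 * (N : ℝ)) ^ α ≤ B.ncard := by
  have hγk1 : 1 ≤ γ ^ k := one_le_pow₀ hγ.le
  have hα1 : α < 1 := by
    by_contra h
    push Not at h
    have : γ ^ k * (1 - α) ≤ 0 := mul_nonpos_of_nonneg_of_nonpos (by positivity) (by linarith)
    linarith
  have hC := Cst_pos γ k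
  -- conditions for `g`
  have e1 : ∀ᶠ x : ℝ in atTop, 8 * Cst γ k ≤ x ^ (2 - γ ^ k) :=
    (tendsto_rpow_atTop (by linarith)).eventually_ge_atTop _
  have e2 : ∀ᶠ x : ℝ in atTop, (3 : ℝ) ^ α * 4 ^ k ≤ x ^ (γ ^ k * (1 - α) - 1) :=
    (tendsto_rpow_atTop (by linarith)).eventually_ge_atTop _
  have e3 : ∀ᶠ x : ℝ in atTop, (2 : ℝ) ≤ x ^ (γ - 1) :=
    (tendsto_rpow_atTop (by linarith)).eventually_ge_atTop _
  have e4 := (tendsto_natCast_atTop_atTop (R := ℝ)).eventually (e1.and (e2.and e3))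
  obtain ⟨g, ⟨h1, h2, h3⟩, h4⟩ := (e4.and (eventually_ge_atTop (2 * R + 2))).exists
  have hg1 : 1 ≤ g := by omega
  have hgR : (1 : ℝ) ≤ g := by exact_mod_cast hg1
  have hg0 : (0 : ℝ) < g := by linarith
  set s : ℕ → ℕ := fun i => ⌊(Gs γ g i : ℝ) ^ (γ - 1)⌋₊ with hs
  have hGg : ∀ i, (g : ℝ) ≤ Gs γ g i := by
    intro i
    refine le_trans ?_ (Gs_lower hγ.le hg1 i).2
    calc (g : ℝ) = (g : ℝ) ^ (1 : ℝ) := (Real.rpow_one _).symm
      _ ≤ _ := Real.rpow_le_rpow_of_exponent_le hgR (one_le_pow₀ hγ.le)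
  have hs2 : ∀ i, 2 ≤ s i := by
    intro i
    rw [hs]
    apply Nat.le_floor
    push_cast
    refine le_trans h3 ?_
    exact Real.rpow_le_rpow hg0.le (hGg i) (by linarith)
  have hp : ∀ i, ∃ p : ℕ, p.Prime ∧ s i < p ∧ p ≤ 2 * s i := fun i =>
    Nat.exists_prime_lt_and_le_two_mul (s i) (by have := hs2 i; omega)
  choose p hp1 hp2 hp3 using hp
  have hHG : ∀ i, g * Hs p i ≤ Gs γ g i := by
    intro i
    induction i with
    | zero => simp [Hs, Gs]
    | succ i ih =>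
      rw [Hs, Gs]
      have h5 : 2 * p i ≤ 4 * s i := by have := hp3 i; omega
      calc g * (Hs p i * (2 * p i)) = (g * Hs p i) * (2 * p i) := by ring
        _ ≤ Gs γ g i * (4 * s i) := Nat.mul_le_mul ih h5
  have hup := Gs_upper hγ.le hg1 k
  have h8 : 8 * Hs p k ≤ g := by
    have h5 : (g : ℝ) * Hs p k ≤ Cst γ k * (g : ℝ) ^ (γ ^ k) :=
      le_trans (by exact_mod_cast hHG k) hup
    have h6 : (g : ℝ) * (8 * Hs p k) ≤ g * g := by
      calc (g : ℝ) * (8 * Hs p k) = 8 * (g * Hs p k) := by ring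
        _ ≤ 8 * (Cst γ k * (g : ℝ) ^ (γ ^ k)) := by linarith
        _ = (8 * Cst γ k) * (g : ℝ) ^ (γ ^ k) := by ring
        _ ≤ (g : ℝ) ^ (2 - γ ^ k) * (g : ℝ) ^ (γ ^ k) :=
            mul_le_mul_of_nonneg_right h1 (by positivity)
        _ = g * g := by
            rw [← Real.rpow_add hg0, sub_add_cancel]
            norm_cast
            ring
    have h7 := le_of_mul_le_mul_left h6 hg0
    exact_mod_cast h7
  let P : Par :=
    { k := k
      s := s
      p := p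
      G := Gs γ g
      H := Hs p
      hs := fun i => by have := hs2 i; omega
      hp := fun i => ⟨hp1 i, (hp2 i).le, by have := hs2 i; have := hp2 i; omega⟩
      hG := fun i => rfl
      hH0 := rfl
      hH := fun i => rfl
      hHG := h8 }
  have hPk : P.k = k := rfl
  have hPG : P.G = Gs γ g := rfl
  refine ⟨P.B, P.G k, g / 2, by omega, ?_, ?_, ?_, ?_, ?_, ?_⟩
  · have : g ≤ P.G k := by
      have := hGg k
      exact_mod_cast this
    omega
  · intro x hx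
    exact P.B_lt hx
  · intro x hx y hy hxy
    have h5 := P.gap hx hy hxy
    have h6 : P.G 0 = g := rfl
    rw [h6] at h5
    omega
  · intro σ
    exact P.rep_B σ
  · intro L hL
    have hL1 : (1 : ℝ) ≤ L := by exact_mod_cast hL
    have hL0 : (0 : ℝ) < L := by linarith
    have hLγ : (L : ℝ) ≤ (L : ℝ) ^ γ := by
      calc (L : ℝ) = (L : ℝ) ^ (1 : ℝ) := (Real.rpow_one _).symm
        _ ≤ _ := Real.rpow_le_rpow_of_exponent_le hL1 hγ.le
    have hlt : ∀ j ≤ k, ∀ y ∈ P.Lev j, y < P.G j := by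
      intro j hj y hy
      have h5 := P.Lev_le hj hy
      have h6 := P.G_pos j
      omega
    by_cases hk : P.G k < 4 * L
    · have h5 := win_bounded (B := P.B) (n := P.G k) (fun x hx => P.B_lt hx) L
      have h6 : (win P.B L).ncard ≤ 6 * L := by omega
      have h7 : ((win P.B L).ncard : ℝ) ≤ 6 * L := by exact_mod_cast h6
      linarith
    · push Not at hk
      -- the least level
      have hex : ∃ j, 4 * L ≤ P.G j := ⟨k, hk⟩
      classical
      set j := Nat.find hex with hj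
      have hj1 : 4 * L ≤ P.G j := Nat.find_spec hex
      have hjk : j ≤ k := Nat.find_min' hex hk
      have h5 := P.win_level (j := j) hjk (n := if j = 0 then 1 else P.G j) (by
        intro y hy
        split_ifs with h
        · rw [h] at hy
          obtain ⟨t, -, ha⟩ := hy
          simp at ha
          omega
        · exact hlt j hjk y hy) hj1
      by_cases hj0 : j = 0
      · rw [if_pos hj0] at h5
        have h6 : (win P.B L).ncard ≤ 3 * L := by omega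
        have h7 : ((win P.B L).ncard : ℝ) ≤ 3 * L := by exact_mod_cast h6
        linarith
      · rw [if_neg hj0] at h5
        obtain ⟨i, hi⟩ : ∃ i, j = i + 1 := ⟨j - 1, by omega⟩
        have h6 : P.G i < 4 * L := by
          by_contra hcon
          push Not at hcon
          have := Nat.find_min' hex hcon
          omega
        have h7 : (P.G j : ℝ) ≤ 4 * (P.G i : ℝ) ^ γ := by
          rw [hi]
          exact Gs_step (Gs_lower hγ.le hg1 i).1
        have h8 : (P.G i : ℝ) ^ γ ≤ 16 * (L : ℝ) ^ γ := by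
          have h9 : (P.G i : ℝ) ≤ 4 * L := by exact_mod_cast h6.le
          calc (P.G i : ℝ) ^ γ ≤ (4 * (L : ℝ)) ^ γ :=
                Real.rpow_le_rpow (by positivity) h9 (by linarith)
            _ = (4 : ℝ) ^ γ * (L : ℝ) ^ γ := Real.mul_rpow (by norm_num) hL0.le
            _ ≤ 16 * (L : ℝ) ^ γ := by
                apply mul_le_mul_of_nonneg_right _ (by positivity)
                calc (4 : ℝ) ^ γ ≤ (4 : ℝ) ^ (2 : ℝ) :=
                      Real.rpow_le_rpow_of_exponent_le (by norm_num) hγ2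
                  _ = 16 := by norm_num
        have h9 : ((win P.B L).ncard : ℝ) ≤ 1 + (P.G j + L) := by exact_mod_cast h5
        linarith
  · -- the number of elements
    have h5 := P.B_card
    rw [hPk] at h5
    have h6 : P.G 0 = g := rfl
    rw [h6] at h5
    have hGk0 : (0 : ℝ) < P.G k := by exact_mod_cast P.G_pos k
    have h7 : (P.B.ncard : ℝ) * (4 ^ k * g) = P.G k := by exact_mod_cast h5
    have h9 : (3 : ℝ) ^ α * 4 ^ k * g ≤ (P.G k : ℝ) ^ (1 - α) := by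
      calc (3 : ℝ) ^ α * 4 ^ k * g ≤ (g : ℝ) ^ (γ ^ k * (1 - α) - 1) * g :=
            mul_le_mul_of_nonneg_right h2 hg0.le
        _ = (g : ℝ) ^ (γ ^ k * (1 - α)) := by
            rw [Real.rpow_sub hg0, Real.rpow_one]
            field_simp
        _ = ((g : ℝ) ^ (γ ^ k)) ^ (1 - α) := by rw [← Real.rpow_mul hg0.le]
        _ ≤ (P.G k : ℝ) ^ (1 - α) :=
            Real.rpow_le_rpow (by positivity) (Gs_lower hγ.le hg1 k).2 (by linarith)
    have h10 : (3 * (P.G k : ℝ)) ^ α * (4 ^ k * g) ≤ P.B.ncard * (4 ^ k * g) := by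
      rw [h7, Real.mul_rpow (by norm_num) hGk0.le]
      calc (3 : ℝ) ^ α * (P.G k : ℝ) ^ α * (4 ^ k * g)
          = (3 : ℝ) ^ α * 4 ^ k * g * (P.G k : ℝ) ^ α := by ring
        _ ≤ (P.G k : ℝ) ^ (1 - α) * (P.G k : ℝ) ^ α :=
            mul_le_mul_of_nonneg_right h9 (by positivity)
        _ = P.G k := by
            rw [← Real.rpow_add hGk0]
            norm_num
    exact le_of_mul_le_mul_right h10 (by positivity)

end Pool.Agent.N508.ET
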