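import Pool.Agent.N508.ET.Blk

/-!
# Windows of the block
-/

set_option autoImplicit false

namespace Pool.Agent.N508.ET

open Finset

/-- the window of length `L` at the integer `u` -/
def tau (B : Set ℕ) (L : ℕ) (u : ℤ) : Set (Fin L) := {i : Fin L | ∃ x ∈ B, (x : ℤ) = u + (i : ℕ)}

/-- all windows of length `L` -/
def win (B : Set ℕ) (L : ℕ) : Set (Set (Fin L)) := Set.range (tau B L)

lemma win_finite (B : Set ℕ) (L : ℕ) : (win B L).Finite := Set.toFinite _

lemma win_bound {B T : Set ℕ} {n L : ℕ}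
    (h : ∀ u : ℤ, tau B L u = ∅ ∨ ∃ v : ℤ, -(L : ℤ) < v ∧ v < n ∧ tau B L u = tau T L v) :
    (win B L).ncard ≤ 1 + (n + L) := by
  have hsub : win B L ⊆ {∅} ∪ (tau T L) '' ((Finset.Ioo (-(L : ℤ)) n : Finset ℤ) : Set ℤ) := by
    rintro _ ⟨u, rfl⟩
    rcases h u with h1 | ⟨v, hv1, hv2, h1⟩
    · left; exact h1
    · right
      refine ⟨v, ?_, h1.symm⟩
      rw [Finset.mem_coe, Finset.mem_Ioo]
      exact ⟨hv1, hv2⟩
  refine le_trans (Set.ncard_le_ncard hsub (Set.toFinite _)) ?_
  refine le_trans (Set.ncard_union_le _ _) ?_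
  rw [Set.ncard_singleton]
  have h1 : ((tau T L) '' ((Finset.Ioo (-(L : ℤ)) n : Finset ℤ) : Set ℤ)).ncard ≤ n + L := by
    refine le_trans (Set.ncard_image_le (Finset.finite_toSet _)) ?_
    rw [Set.ncard_coe_finset, Int.card_Ioo]
    omega
  omega

/-- windows of a bounded set -/
lemma win_bounded {B : Set ℕ} {n : ℕ} (hB : ∀ x ∈ B, x < n) (L : ℕ) :
    (win B L).ncard ≤ 1 + (n + L) := by
  apply win_bound (T := B)
  intro u
  rcases Set.eq_empty_or_nonempty (tau B L u) with h | ⟨i, x, hx, hxu⟩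
  · left; exact h
  · right
    have h1 := hB x hx
    have h2 := i.2
    exact ⟨u, by omega, by omega, rfl⟩

namespace Par

variable (P : Par)

/-- windows of length at most `G j / 4` see at most one translate of level `j` -/
lemma win_level {j : ℕ} (hj : j ≤ P.k) {n L : ℕ} (hn : ∀ y ∈ P.Lev j, y < n)
    (hL : 4 * L ≤ P.G j) : (win P.B L).ncard ≤ 1 + (n + L) := by
  apply win_bound (T := P.Lev j)
  intro u
  rcases Set.eq_empty_or_nonempty (tau P.B L u) with h | ⟨i₀, x₀, hx₀, hxu₀⟩
  · left; exact h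
  · right
    obtain ⟨t, ht, y₀, hy₀, hxy₀⟩ := P.decomp hj hx₀
    set z := ∑ i ∈ Ico j P.k, P.D i (t i) with hz
    have h1 := hn y₀ hy₀
    have h2 := i₀.2
    have h3 := P.Lev_le hj hy₀
    refine ⟨u - z, by omega, by omega, ?_⟩
    ext i
    constructor
    · rintro ⟨x, hx, hxu⟩
      obtain ⟨t', ht', y, hy, hxy⟩ := P.decomp hj hx
      have h4 := P.far hj ht ht'
      rw [← hz] at h4
      set z' := ∑ i ∈ Ico j P.k, P.D i (t' i) with hz'
      have h5 := P.Lev_le hj hy
      have h6 := i.2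
      have h7 : z = z' := by
        rcases h4 with h4 | h4 | h4
        · exact h4
        · exfalso; omega
        · exfalso; omega
      refine ⟨y, hy, ?_⟩
      omega
    · rintro ⟨y, hy, hyu⟩
      refine ⟨y + z, P.comp hj ht hy, ?_⟩
      push_cast
      omega

/-- two elements are far apart -/
lemma gap {x y : ℕ} (hx : x ∈ P.B) (hy : y ∈ P.B) (hxy : x < y) : 8 * x + 7 * P.G 0 < 8 * y := by
  obtain ⟨t, ht, a, ha, hxa⟩ := P.decomp (Nat.zero_le P.k) hx
  obtain ⟨u, hu, b, hb, hyb⟩ := P.decomp (Nat.zero_le P.k) hy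
  have h0 : ∀ a ∈ P.Lev 0, a = 0 := by
    rintro a ⟨t, -, ha⟩
    simpa using ha
  rw [h0 a ha, zero_add] at hxa
  rw [h0 b hb, zero_add] at hyb
  have h1 := P.far (Nat.zero_le P.k) ht hu
  rw [← hxa, ← hyb] at h1
  rcases h1 with h1 | h1 | h1
  · omega
  · exact h1
  · omega

lemma B_lt {x : ℕ} (hx : x ∈ P.B) : x < P.G P.k := by
  have h1 := P.Lev_le (le_refl _) hx
  have h2 := P.G_pos P.k
  omega

lemma B_finite : P.B.Finite := Set.Finite.subset (Set.finite_Iio (P.G P.k)) (fun _ hx => P.B_lt hx)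

/-- the number of elements -/
lemma B_card : P.B.ncard * (4 ^ P.k * P.G 0) = P.G P.k := by
  have hGk : ∀ m, P.G m = (∏ i ∈ range m, P.s i) * (4 ^ m * P.G 0) := by
    intro m
    induction m with
    | zero => simp
    | succ m ih =>
      rw [P.hG, ih, prod_range_succ, pow_succ]
      ring
  rw [hGk P.k]
  congr 1
  set S := Fintype.piFinset (fun i : Fin P.k => range (P.s i)) with hS
  set ext : (Fin P.k → ℕ) → ℕ → ℕ := fun t i => if h : i < P.k then t ⟨i, h⟩ else 0 with hext
  set f : (Fin P.k → ℕ) → ℕ := fun t => ∑ i ∈ range P.k, P.D i (ext t i) with hf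
  have hextm : ∀ t ∈ S, ∀ i < P.k, ext t i < P.s i := by
    intro t ht i hi
    rw [hS, Fintype.mem_piFinset] at ht
    have h1 := ht ⟨i, hi⟩
    rw [mem_range] at h1
    rw [hext]
    simp only [hi, dite_true]
    exact h1
  have hB : P.B = f '' (S : Set (Fin P.k → ℕ)) := by
    ext x
    constructor
    · rintro ⟨t, ht, rfl⟩
      refine ⟨fun i => t i, ?_, ?_⟩
      · rw [Finset.mem_coe, hS, Fintype.mem_piFinset]
        intro i
        rw [mem_range]
        exact ht i i.2
      · rw [hf]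
        apply sum_congr rfl
        intro i hi
        rw [mem_range] at hi
        rw [hext]
        simp only [hi, dite_true]
    · rintro ⟨t, ht, rfl⟩
      exact ⟨ext t, hextm t ht, rfl⟩
  have hinj : Set.InjOn f (S : Set (Fin P.k → ℕ)) := by
    intro t ht u hu h
    have h1 := P.decode (hextm t ht) (hextm t ht) (hextm u hu) (hextm u hu) (by
      have h2 : ∑ i ∈ range P.k, P.D i (ext t i) = ∑ i ∈ range P.k, P.D i (ext u i) := h
      rw [h2])
    funext i
    have h2 := h1 i i.2
    rw [hext] at h2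
    simp only [i.2, dite_true, Fin.eta] at h2
    tauto
  rw [hB, Set.ncard_image_of_injOn hinj, Set.ncard_coe_finset, hS, Fintype.card_piFinset]
  simp only [card_range]
  rw [Finset.prod_range]

end Par

end Pool.Agent.N508.ET
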